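import Pool.Agent.Lib_helper64.FMS.RegimeTwo

/-!
# Several greedy steps: the range `s ≤ m ≤ 64 s⁴`
-/

namespace Pool.Agent.FMS

open Finset

/-- Comparison of binomial coefficients `(k+r).choose r` for increasing `r`. -/
theorem choose_add_mul_pow_le (k r t : ℕ) :
    (k + (r + t)).choose (r + t) * r ^ t ≤ (k + (r + t)) ^ t * (k + r).choose r := by
  induction t with
  | zero => simp
  | succ t ih =>
    have h1 : (k + (r + t) + 1) * (k + (r + t)).choose (r + t) =
        (k + (r + t) + 1).choose (r + t + 1) * (r + t + 1) :=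
      Nat.add_one_mul_choose_eq (k + (r + t)) (r + t)
    have e1 : k + (r + (t + 1)) = k + (r + t) + 1 := by ring
    have e2 : r + (t + 1) = r + t + 1 := by ring
    rw [e1, e2]
    set c := (k + (r + t) + 1).choose (r + t + 1) with hc
    have h2 : c * r ≤ (k + (r + t) + 1) * (k + (r + t)).choose (r + t) := by
      rw [h1]
      exact Nat.mul_le_mul_left _ (by omega)
    calc c * r ^ (t + 1) = (c * r) * r ^ t := by ring
      _ ≤ ((k + (r + t) + 1) * (k + (r + t)).choose (r + t)) * r ^ t :=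
        Nat.mul_le_mul_right _ h2
      _ = (k + (r + t) + 1) * ((k + (r + t)).choose (r + t) * r ^ t) := by ring
      _ ≤ (k + (r + t) + 1) * ((k + (r + t)) ^ t * (k + r).choose r) :=
        Nat.mul_le_mul_left _ ih
      _ ≤ (k + (r + t) + 1) * ((k + (r + t) + 1) ^ t * (k + r).choose r) :=
        Nat.mul_le_mul_left _ (Nat.mul_le_mul_right _ (Nat.pow_le_pow_left (Nat.le_succ _) t))
      _ = (k + (r + t) + 1) ^ (t + 1) * (k + r).choose r := by ring

theorem nine_sq_le (u : ℕ) (hu : 13 ≤ u) : 9 * (2 * u + 1) ^ 2 ≤ 2 ^ u := by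
  induction u, hu using Nat.le_induction with
  | base => norm_num
  | succ u hu ih =>
    calc 9 * (2 * (u + 1) + 1) ^ 2 ≤ 2 * (9 * (2 * u + 1) ^ 2) := by nlinarith
      _ ≤ 2 * 2 ^ u := Nat.mul_le_mul_left _ ih
      _ = 2 ^ (u + 1) := by ring

/-- The range of small `m`. -/
theorem regime_three {m s : ℕ} (hs : 26 ≤ s) (hsm : s ≤ m) (hm : m ≤ 64 * s ^ 4) :
    (m + s).choose s ≤ 2 ^ 37 * s ^ 17 * f m s := by
  set ρ := m / s with hρ
  have hρ1 : 1 ≤ ρ := (Nat.one_le_div_iff (by omega)).2 hsm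
  have hρ2 : ρ * s ≤ m := Nat.div_mul_le_self m s
  have hρ3 : m < s * (ρ + 1) := Nat.lt_mul_div_succ m (by omega)
  set h := Nat.sqrt ρ with hh
  have hh1 : h * h ≤ ρ := Nat.sqrt_le ρ
  have hh2 : ρ < (h + 1) * (h + 1) := Nat.lt_succ_sqrt ρ
  have hh3 : 1 ≤ h := Nat.sqrt_pos.2 hρ1
  have hhρ : h ≤ ρ := by nlinarith
  set t := Nat.clog (h + 1) (9 * s ^ 2) with ht
  have ht1 : 9 * s ^ 2 ≤ (h + 1) ^ t := Nat.le_pow_clog (by omega) _
  have h9 : 1 < 9 * s ^ 2 := by nlinarith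
  have htpos : 0 < t := Nat.clog_pos (by omega) h9
  have ht2 : (h + 1) ^ (t - 1) < 9 * s ^ 2 := Nat.pow_pred_clog_lt_self (by omega) h9
  obtain ⟨t', ht'⟩ : ∃ t', t = t' + 1 := ⟨t - 1, by omega⟩
  rw [ht', Nat.add_sub_cancel] at ht2
  have ht3 : 2 ^ t' < 9 * s ^ 2 := lt_of_le_of_lt (Nat.pow_le_pow_left (by omega) t') ht2
  have h2t : 2 * t ≤ s := by
    by_contra hcon
    push Not at hcon
    have h1 : s / 2 ≤ t' := by omega
    have h2 : 9 * (2 * (s / 2) + 1) ^ 2 ≤ 2 ^ (s / 2) := nine_sq_le _ (by omega)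
    have h3 : 2 ^ (s / 2) ≤ 2 ^ t' := Nat.pow_le_pow_right (by norm_num) h1
    have h4 : s ≤ 2 * (s / 2) + 1 := by omega
    have h5 : 9 * s ^ 2 ≤ 9 * (2 * (s / 2) + 1) ^ 2 :=
      Nat.mul_le_mul_left _ (Nat.pow_le_pow_left h4 2)
    omega
  have hth : 2 * (t * h) ≤ m := by
    calc 2 * (t * h) = (2 * t) * h := by ring
      _ ≤ s * ρ := Nat.mul_le_mul h2t hhρ
      _ = ρ * s := mul_comm _ _
      _ ≤ m := hρ2
  obtain ⟨k, hk⟩ : ∃ k, m = k + t * h := ⟨m - t * h, by omega⟩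
  obtain ⟨r, hr⟩ : ∃ r, s = r + t := ⟨s - t, by omega⟩
  have hkm : m ≤ 2 * k := by omega
  have hrs : s ≤ 2 * r := by omega
  set M := (k + r).choose r with hM
  have hM1 : 1 ≤ M := Nat.choose_pos (by omega)
  set H := (h + 1) ^ t with hH
  -- `M < 2 ^ H`
  have hMlt : M < 2 ^ H := by
    have h1 : k + r ≤ 2 ^ (7 + 4 * s) := by
      have h2 : s < 2 ^ s := Nat.lt_two_pow_self
      calc k + r ≤ 2 * m := by omega
        _ ≤ 2 * (64 * s ^ 4) := Nat.mul_le_mul_left _ hm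
        _ ≤ 2 * (64 * (2 ^ s) ^ 4) :=
          Nat.mul_le_mul_left _ (Nat.mul_le_mul_left _ (Nat.pow_le_pow_left h2.le 4))
        _ = 2 ^ (7 + 4 * s) := by
          rw [← pow_mul, pow_add, mul_comm s 4]
          ring
    calc M ≤ (k + r) ^ r := Nat.choose_le_pow _ _
      _ ≤ (2 ^ (7 + 4 * s)) ^ r := Nat.pow_le_pow_left h1 r
      _ = 2 ^ ((7 + 4 * s) * r) := by rw [← pow_mul]
      _ < 2 ^ H := by
        apply Nat.pow_lt_pow_right (by norm_num)
        refine lt_of_lt_of_le ?_ ht1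
        nlinarith
  have hfM : M ≤ 2 * f m s := by
    have h1 := lt_f (k := k) (r := r) (t := t) (N := M / 2) (fun _ => h) (by
      rw [Finset.prod_const, Finset.card_univ, Fintype.card_fin, ← hM, ← hH]
      rcases Nat.eq_zero_or_pos (M / 2) with h0 | h0
      · rw [h0]
        simp only [Nat.mul_zero, Nat.zero_add]
        rw [zero_pow (by omega)]
        positivity
      · have hle : 2 * (M / 2) ≤ M := Nat.mul_div_le M 2
        calc (2 * (M / 2)) ^ (H + 1) = (2 * (M / 2)) * (2 * (M / 2)) ^ H := by ring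
          _ ≤ M * (2 * (M / 2)) ^ H := Nat.mul_le_mul_right _ hle
          _ < 2 ^ H * (2 * (M / 2)) ^ H :=
            Nat.mul_lt_mul_of_pos_right hMlt (pow_pos (by omega) _)
          _ = (2 * (M / 2) + 2 * (M / 2)) ^ H := by rw [← mul_pow, two_mul (2 * (M / 2))]
          _ ≤ (2 * (M / 2) + M) ^ H := Nat.pow_le_pow_left (by omega) _)
    rw [Finset.sum_const, Finset.card_univ, Fintype.card_fin, smul_eq_mul, ← hk, ← hr] at h1
    omega
  -- the ratio
  have hb1 := choose_mul_pow_le (k := k) (m := m) (by omega) s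
  have hb2 : m ^ s ≤ 8 ^ t * k ^ s := by
    have hk0 : (0 : ℝ) < (k : ℝ) := by
      have : 0 < k := by omega
      exact_mod_cast this
    have h2 : (m : ℝ) = k * (1 + (t * h : ℕ) / (k : ℝ)) := by
      have h3 : (k : ℝ) * (1 + (t * h : ℕ) / (k : ℝ)) = k + (t * h : ℕ) := by
        field_simp
      rw [h3]
      exact_mod_cast hk
    have h5 : (1 + ((t * h : ℕ) : ℝ) / (k : ℝ)) ^ s ≤ 8 ^ t := by
      have h6 : (1 + ((t * h : ℕ) : ℝ) / (k : ℝ)) ≤ Real.exp (((t * h : ℕ) : ℝ) / (k : ℝ)) := by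
        rw [add_comm]
        exact Real.add_one_le_exp _
      calc (1 + ((t * h : ℕ) : ℝ) / (k : ℝ)) ^ s ≤
            (Real.exp (((t * h : ℕ) : ℝ) / (k : ℝ))) ^ s :=
            pow_le_pow_left₀ (by positivity) h6 _
        _ = Real.exp ((s : ℕ) * (((t * h : ℕ) : ℝ) / (k : ℝ))) := by rw [← Real.exp_nat_mul]
        _ ≤ Real.exp (t * 2) := by
          apply Real.exp_le_exp.2
          rw [← mul_div_assoc, div_le_iff₀ hk0]
          have h7 : s * (t * h) ≤ t * 2 * k := by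
            calc s * (t * h) = t * (h * s) := by ring
              _ ≤ t * (ρ * s) := Nat.mul_le_mul_left _ (Nat.mul_le_mul_right _ hhρ)
              _ ≤ t * m := Nat.mul_le_mul_left _ hρ2
              _ ≤ t * (2 * k) := Nat.mul_le_mul_left _ hkm
              _ = t * 2 * k := by ring
          exact_mod_cast h7
        _ = (Real.exp 2) ^ t := by rw [Real.exp_nat_mul]
        _ ≤ 8 ^ t := by
          apply pow_le_pow_left₀ (Real.exp_pos 2).le
          have h8 : Real.exp 2 = Real.exp 1 * Real.exp 1 := by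
            rw [← Real.exp_add]
            norm_num
          rw [h8]
          have := Real.exp_one_lt_d9
          have h7 := Real.exp_pos 1
          nlinarith
    have h8 : ((m ^ s : ℕ) : ℝ) ≤ ((8 ^ t * k ^ s : ℕ) : ℝ) := by
      push_cast
      rw [h2, mul_pow]
      calc (k : ℝ) ^ s * (1 + ((t * h : ℕ) : ℝ) / (k : ℝ)) ^ s ≤ (k : ℝ) ^ s * 8 ^ t :=
            mul_le_mul_of_nonneg_left h5 (by positivity)
        _ = 8 ^ t * (k : ℝ) ^ s := mul_comm _ _
    exact_mod_cast h8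
  have hb3 : (k + s).choose s ≤ (4 * ((h + 1) * (h + 1))) ^ t * M := by
    have h1 := choose_add_mul_pow_le k r t
    rw [← hr] at h1
    have hr0 : 0 < r := by omega
    have h2 : k + s ≤ (4 * ((h + 1) * (h + 1))) * r := by
      calc k + s ≤ 2 * m := by omega
        _ ≤ 2 * (s * ((h + 1) * (h + 1))) := by
          refine Nat.mul_le_mul_left _ (hρ3.le.trans (Nat.mul_le_mul_left _ hh2))
        _ ≤ 2 * ((2 * r) * ((h + 1) * (h + 1))) :=
          Nat.mul_le_mul_left _ (Nat.mul_le_mul_right _ hrs)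
        _ = (4 * ((h + 1) * (h + 1))) * r := by ring
    have h3 : (k + s).choose s * r ^ t ≤ ((4 * ((h + 1) * (h + 1))) ^ t * M) * r ^ t := by
      calc (k + s).choose s * r ^ t ≤ (k + s) ^ t * M := h1
        _ ≤ ((4 * ((h + 1) * (h + 1))) * r) ^ t * M :=
          Nat.mul_le_mul_right _ (Nat.pow_le_pow_left h2 t)
        _ = ((4 * ((h + 1) * (h + 1))) ^ t * M) * r ^ t := by rw [mul_pow]; ring
    exact Nat.le_of_mul_le_mul_right h3 (pow_pos hr0 _)
  have hk0 : 0 < k := by omega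
  have hC : (m + s).choose s ≤ 8 ^ t * ((4 * ((h + 1) * (h + 1))) ^ t * M) := by
    have h1 : (m + s).choose s * k ^ s ≤
        (8 ^ t * ((4 * ((h + 1) * (h + 1))) ^ t * M)) * k ^ s := by
      calc (m + s).choose s * k ^ s ≤ m ^ s * (k + s).choose s := hb1
        _ ≤ (8 ^ t * k ^ s) * ((4 * ((h + 1) * (h + 1))) ^ t * M) := Nat.mul_le_mul hb2 hb3
        _ = (8 ^ t * ((4 * ((h + 1) * (h + 1))) ^ t * M)) * k ^ s := by ring
    exact Nat.le_of_mul_le_mul_right h1 (pow_pos hk0 _)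
  -- final estimate
  have hρs : ρ ≤ 64 * s ^ 3 := by
    have h1 : s * ρ ≤ s * (64 * s ^ 3) := by
      calc s * ρ = ρ * s := mul_comm _ _
        _ ≤ m := hρ2
        _ ≤ 64 * s ^ 4 := hm
        _ = s * (64 * s ^ 3) := by ring
    exact Nat.le_of_mul_le_mul_left h1 (by omega)
  have hH2 : H ^ 2 ≤ 20736 * s ^ 7 := by
    have h1 : H = (h + 1) * (h + 1) ^ t' := by
      rw [hH, ht']
      ring
    have h2 : (h + 1) ^ 2 ≤ 256 * s ^ 3 := by
      calc (h + 1) ^ 2 ≤ (2 * h) ^ 2 := Nat.pow_le_pow_left (by omega) 2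
        _ = 4 * (h * h) := by ring
        _ ≤ 4 * (64 * s ^ 3) := Nat.mul_le_mul_left _ (hh1.trans hρs)
        _ = 256 * s ^ 3 := by ring
    calc H ^ 2 = (h + 1) ^ 2 * ((h + 1) ^ t') ^ 2 := by rw [h1, mul_pow]
      _ ≤ (256 * s ^ 3) * (9 * s ^ 2) ^ 2 :=
        Nat.mul_le_mul h2 (Nat.pow_le_pow_left ht2.le 2)
      _ = 20736 * s ^ 7 := by ring
  have h32 : 32 ^ t ≤ 1889568 * s ^ 10 := by
    calc 32 ^ t = 32 * (2 ^ t') ^ 5 := by
          rw [ht', pow_succ, ← pow_mul, mul_comm t' 5, pow_mul]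
          norm_num
          ring
      _ ≤ 32 * (9 * s ^ 2) ^ 5 := Nat.mul_le_mul_left _ (Nat.pow_le_pow_left ht3.le 5)
      _ = 1889568 * s ^ 10 := by ring
  calc (m + s).choose s ≤ 8 ^ t * ((4 * ((h + 1) * (h + 1))) ^ t * M) := hC
    _ = 32 ^ t * (H ^ 2 * M) := by
      rw [hH, mul_pow, mul_pow, ← pow_mul, mul_comm t 2, pow_mul]
      have : (32 : ℕ) ^ t = 8 ^ t * 4 ^ t := by
        rw [← mul_pow]
        norm_num
      rw [this, sq, mul_pow]
      ring
    _ ≤ (1889568 * s ^ 10) * ((20736 * s ^ 7) * (2 * f m s)) :=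
      Nat.mul_le_mul h32 (Nat.mul_le_mul hH2 hfM)
    _ = 78364164096 * s ^ 17 * f m s := by ring
    _ ≤ 2 ^ 37 * s ^ 17 * f m s := by
      refine Nat.mul_le_mul_right _ (Nat.mul_le_mul_right _ (by norm_num))

end Pool.Agent.FMS
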