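import Pool.Agent.Lib_helper64.FMS.RegimeOne
import Pool.Agent.Lib_helper64.FMS.RegimeThree

/-!
# The uniform estimate for `m ≥ s`
-/

namespace Pool.Agent.FMS

open Finset

theorem sq_le_four_two_pow (a : ℕ) (ha : 2 ≤ a) : (a + 2) ^ 2 ≤ 4 * 2 ^ a := by
  induction a, ha using Nat.le_induction with
  | base => norm_num
  | succ a ha ih =>
    calc (a + 1 + 2) ^ 2 ≤ 2 * (a + 2) ^ 2 := by nlinarith
      _ ≤ 2 * (4 * 2 ^ a) := Nat.mul_le_mul_left _ ih
      _ = 4 * 2 ^ (a + 1) := by ring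

theorem regime_two_condition {m s : ℕ} (hs : 2 ≤ s) (hm : 64 * s ^ 4 ≤ m) :
    4 * s * (s * (Nat.log 2 m + 2)) ≤ m := by
  set a := Nat.log 2 m with ha
  have hs4 : 2 ^ 4 ≤ s ^ 4 := Nat.pow_le_pow_left hs 4
  have hm0 : m ≠ 0 := by omega
  have h1 : 2 ^ a ≤ m := Nat.pow_log_le_self 2 hm0
  have h2 : 2 ≤ a := by
    rw [ha]
    exact (Nat.le_log_iff_pow_le one_lt_two hm0).2 (by omega)
  have h3 := sq_le_four_two_pow a h2
  have h4 : (4 * s * (s * (a + 2))) ^ 2 ≤ m ^ 2 := by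
    calc (4 * s * (s * (a + 2))) ^ 2 = 16 * s ^ 4 * (a + 2) ^ 2 := by ring
      _ ≤ 16 * s ^ 4 * (4 * 2 ^ a) := Nat.mul_le_mul_left _ h3
      _ = (64 * s ^ 4) * 2 ^ a := by ring
      _ ≤ m * m := Nat.mul_le_mul hm h1
      _ = m ^ 2 := by ring
  exact (Nat.pow_le_pow_iff_left (by norm_num)).1 h4

theorem succ_le_f_one (m : ℕ) : m + 1 ≤ f m 1 := by
  apply le_f
  refine ⟨by omega, univ.erase 0, ?_, ?_⟩
  · rw [Finset.card_erase_of_mem (Finset.mem_univ _), Finset.card_univ, ZMod.card]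
    omega
  · ext x
    simp only [Set.mem_univ, iff_true]
    by_cases hx : x = 0
    · exact ⟨0, by simp, by simp, by simp [hx]⟩
    · refine ⟨{x}, ?_, by simp, by simp⟩
      intro a ha
      rw [Multiset.mem_singleton] at ha
      rw [ha]
      exact Finset.mem_erase.2 ⟨hx, Finset.mem_univ _⟩

/-- The uniform estimate. -/
theorem uniform_bound : ∃ C : ℕ, ∀ m s : ℕ, 1 ≤ s → s ≤ m →
    (m + s).choose s ≤ C * s ^ 17 * f m s := by
  obtain ⟨C, hC⟩ : ∃ C : ℕ, C = 2 ^ 625 := ⟨_, rfl⟩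
  have hC1 : 1 ≤ C := by
    rw [hC]
    exact Nat.one_le_two_pow
  have hC37 : 2 ^ 37 ≤ C := by
    rw [hC]
    exact Nat.pow_le_pow_right (by norm_num) (by norm_num)
  refine ⟨C, fun m s hs hsm => ?_⟩
  rcases Nat.lt_or_ge s 2 with h1 | hs2
  · have : s = 1 := by omega
    subst this
    rw [Nat.choose_one_right, one_pow, mul_one]
    have h2 := succ_le_f_one m
    have h3 : 1 * f m 1 ≤ C * f m 1 := Nat.mul_le_mul_right _ hC1
    omega
  rcases Nat.lt_or_ge m (64 * s ^ 4) with hm4 | hm4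
  · rcases Nat.lt_or_ge s 26 with h26 | h26
    · have hf1 : 1 ≤ f m s := le_f (one_mem_orders _ _)
      have h2 : s ^ 4 ≤ 25 ^ 4 := Nat.pow_le_pow_left (by omega) 4
      have h3 : m + s ≤ 2 ^ 25 := by omega
      have h4 : (m + s).choose s ≤ C := by
        calc (m + s).choose s ≤ (m + s) ^ s := Nat.choose_le_pow _ _
          _ ≤ (2 ^ 25) ^ s := Nat.pow_le_pow_left h3 s
          _ ≤ (2 ^ 25) ^ 25 := Nat.pow_le_pow_right (by norm_num) (by omega)
          _ = C := by rw [← pow_mul, hC]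
      have h5 : 1 ≤ s ^ 17 := Nat.one_le_pow _ _ (by omega)
      calc (m + s).choose s ≤ C * 1 * 1 := by rw [mul_one, mul_one]; exact h4
        _ ≤ C * s ^ 17 * f m s :=
          Nat.mul_le_mul (Nat.mul_le_mul_left _ h5) hf1
    · refine (regime_three h26 hsm hm4.le).trans ?_
      exact Nat.mul_le_mul_right _ (Nat.mul_le_mul_right _ hC37)
  · rcases Nat.lt_or_ge m (2 ^ (60 * s ^ 6)) with hm6 | hm6
    · have h1 := regime_two hs2 (regime_two_condition hs2 hm4)
      have hm0 : m ≠ 0 := by omega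
      have h2 : Nat.log 2 m < 60 * s ^ 6 := Nat.log_lt_of_lt_pow hm0 hm6
      have h3 : 1 ≤ s ^ 6 := Nat.one_le_pow _ _ (by omega)
      have h4 : Nat.log 2 m + 2 ≤ 61 * s ^ 6 := by omega
      calc (m + s).choose s ≤ 64 * (s * (Nat.log 2 m + 2)) * f m s := h1
        _ ≤ 64 * (s * (61 * s ^ 6)) * f m s :=
          Nat.mul_le_mul_right _ (Nat.mul_le_mul_left _ (Nat.mul_le_mul_left _ h4))
        _ = 3904 * s ^ 7 * f m s := by ring
        _ ≤ C * s ^ 17 * f m s := by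
          refine Nat.mul_le_mul_right _ (Nat.mul_le_mul ?_ ?_)
          · exact le_trans (by norm_num) hC37
          · exact Nat.pow_le_pow_right (by omega) (by norm_num)
    · refine (regime_one hs2 hm6).trans ?_
      refine Nat.mul_le_mul_right _ (Nat.mul_le_mul ?_ ?_)
      · exact le_trans (by norm_num) hC37
      · exact Nat.pow_le_pow_right (by omega) (by norm_num)

end Pool.Agent.FMS
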