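import Pool.Agent.Lib_helper64.FMS.Lattice

/-!
# The blow-up of a finite family to large cyclic groups
-/

namespace Pool.Agent.FMS

open Finset Matrix

/-- Every element of `ZMod N` is a sum of `s` members of the family with different indices. -/
def Seed {m₀ N : ℕ} (s : ℕ) (a : Fin m₀ → ZMod N) : Prop :=
  ∀ g : ZMod N, ∃ S : Finset (Fin m₀), S.card = s ∧ ∑ i ∈ S, a i = g

theorem coprime_moduli {s E x : ℕ} (hE : s.factorial ∣ E) {i j : Fin s} (hij : i ≠ j) :
    Nat.Coprime (1 + (x + (i : ℕ)) * E) (1 + (x + (j : ℕ)) * E) := by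
  wlog h : i < j generalizing i j with H
  · exact (H hij.symm (lt_of_le_of_ne (not_lt.1 h) hij.symm)).symm
  have hlt : (i : ℕ) < (j : ℕ) := h
  have hjs : (j : ℕ) < s := j.2
  set g := Nat.gcd (1 + (x + (i : ℕ)) * E) (1 + (x + (j : ℕ)) * E) with hg
  have h1 : g ∣ 1 + (x + (i : ℕ)) * E := Nat.gcd_dvd_left _ _
  have h2 : g ∣ 1 + (x + (j : ℕ)) * E := Nat.gcd_dvd_right _ _
  have h3 : g ∣ ((j : ℕ) - (i : ℕ)) * E := by
    have h4 : (1 + (x + (j : ℕ)) * E) - (1 + (x + (i : ℕ)) * E) = ((j : ℕ) - (i : ℕ)) * E := by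
      obtain ⟨d, hd⟩ := Nat.exists_eq_add_of_lt hlt
      rw [hd]
      have h5 : (i : ℕ) + d + 1 - (i : ℕ) = d + 1 := by omega
      rw [h5]
      have h6 : 1 + (x + ((i : ℕ) + d + 1)) * E = (1 + (x + (i : ℕ)) * E) + (d + 1) * E := by ring
      rw [h6, Nat.add_sub_cancel_left]
    rw [← h4]
    exact Nat.dvd_sub h2 h1
  have hgE : Nat.Coprime g E := by
    have h5 : Nat.Coprime (1 + (x + (i : ℕ)) * E) E := by
      rw [Nat.coprime_add_mul_right_left]
      exact Nat.coprime_one_left _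
    exact Nat.Coprime.coprime_dvd_left h1 h5
  have h6 : g ∣ (j : ℕ) - (i : ℕ) := hgE.dvd_of_dvd_mul_right h3
  have h7 : g ∣ E := (h6.trans (Nat.dvd_factorial (by omega) (by omega))).trans hE
  exact Nat.Coprime.eq_one_of_dvd hgE h7

/-- The common difference of the moduli in the blow-up. -/
def blowE (s m₀ N : ℕ) : ℕ := m₀.factorial ^ (s * s) * N * s.factorial

/-- The constant of the nearly cubic lattices in the blow-up. -/
def blowK (s m₀ N : ℕ) : ℕ :=
  s * (s * (m₀ ^ s * s * (blowE s m₀ N * (s.factorial * (m₀ ^ s) ^ s))))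

theorem blowE_pos {s m₀ N : ℕ} (hN : 0 < N) : 0 < blowE s m₀ N := by
  have h1 := Nat.factorial_pos m₀
  have h2 := Nat.factorial_pos s
  unfold blowE
  positivity

theorem det_dvd_blowE {s m₀ N : ℕ} {ι : Fin s → Fin m₀} (hι : Function.Injective ι) :
    (Matrix.vandermonde fun i => (((ι i : Fin m₀) : ℕ) : ℤ)).det ∣ (blowE s m₀ N : ℤ) := by
  classical
  rw [Matrix.det_vandermonde]
  have h1 : ∀ i : Fin s, ∏ j ∈ Finset.Ioi i,
      ((((ι j : Fin m₀) : ℕ) : ℤ) - (((ι i : Fin m₀) : ℕ) : ℤ)) ∣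
        ((m₀.factorial : ℤ)) ^ s := by
    intro i
    have h2 : ∏ j ∈ Finset.Ioi i,
        ((((ι j : Fin m₀) : ℕ) : ℤ) - (((ι i : Fin m₀) : ℕ) : ℤ)) ∣
          ∏ _j ∈ Finset.Ioi i, (m₀.factorial : ℤ) := by
      refine Finset.prod_dvd_prod_of_dvd _ _ fun j hj => ?_
      have hne : j ≠ i := (Finset.mem_Ioi.1 hj).ne'
      have hne2 : (ι j : ℕ) ≠ (ι i : ℕ) := fun h => hne (hι (Fin.ext h))
      have hlt1 := (ι j).2
      have hlt2 := (ι i).2
      rw [← Int.natAbs_dvd]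
      have h3 : 0 < ((((ι j : Fin m₀) : ℕ) : ℤ) - (((ι i : Fin m₀) : ℕ) : ℤ)).natAbs := by
        omega
      have h4 : ((((ι j : Fin m₀) : ℕ) : ℤ) - (((ι i : Fin m₀) : ℕ) : ℤ)).natAbs ≤ m₀ := by
        omega
      exact_mod_cast Nat.dvd_factorial h3 h4
    refine h2.trans ?_
    rw [Finset.prod_const]
    refine pow_dvd_pow _ ?_
    refine (Finset.card_le_univ _).trans ?_
    simp
  have h2 : ∏ i : Fin s, ∏ j ∈ Finset.Ioi i,
      ((((ι j : Fin m₀) : ℕ) : ℤ) - (((ι i : Fin m₀) : ℕ) : ℤ)) ∣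
        ∏ _i : Fin s, ((m₀.factorial : ℤ)) ^ s :=
    Finset.prod_dvd_prod_of_dvd _ _ fun i _ => h1 i
  refine h2.trans ?_
  rw [Finset.prod_const, Finset.card_univ, Fintype.card_fin, ← pow_mul]
  unfold blowE
  rw [mul_assoc]
  push_cast
  exact Dvd.intro _ rfl

/-- The blow-up. -/
theorem blow {s m₀ N : ℕ} (hN : 0 < N) (hm₀ : 1 ≤ m₀) (a : Fin m₀ → ZMod N) (ha : Seed s a)
    (x : ℕ) :
      N * ∏ j : Fin s, (1 + (x + (j : ℕ)) * blowE s m₀ N) ∈
        orders (m₀ * (1 + x * blowE s m₀ N + 2 * blowK s m₀ N + 1)) s := by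
  classical
  set Vm : (Fin s → Fin m₀) → Matrix (Fin s) (Fin s) ℤ := fun ι =>
    Matrix.vandermonde fun i => (((ι i : Fin m₀) : ℕ) : ℤ) with hVm
  have hdet : ∀ ι : Fin s → Fin m₀, Function.Injective ι → (Vm ι).det ≠ 0 := by
    intro ι hι
    rw [hVm, Matrix.det_vandermonde_ne_zero_iff]
    intro i j hij
    apply hι
    apply Fin.ext
    simp only at hij
    exact_mod_cast hij
  set E : ℕ := blowE s m₀ N with hEdef
  set K : ℕ := blowK s m₀ N with hKdef
  have hE0 : 0 < E := blowE_pos hN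
  have hfE : s.factorial ∣ E := Dvd.intro_left _ rfl
  have hNE : N ∣ E := by
    rw [hEdef]
    unfold blowE
    rw [mul_right_comm]
    exact Dvd.intro_left _ rfl
  have hKf : ∀ ι : Fin s → Fin m₀, Function.Injective ι → ∀ (x : ℕ) (y : Fin s → ℤ),
      ∃ l : Fin s → ℕ, (∀ i, l i ≤ 1 + x * E + 2 * K) ∧
        ∀ j : Fin s, ((1 + (x + (j : ℕ)) * E : ℕ) : ℤ) ∣ (∑ i, (l i : ℤ) * Vm ι i j) - y j := by
    intro ι hι
    obtain ⟨e, he⟩ := det_dvd_blowE (s := s) (m₀ := m₀) (N := N) hι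
    have hVB : ∀ i j, |Vm ι i j| ≤ ((m₀ ^ s : ℕ) : ℤ) := by
      intro i j
      have h3 : Vm ι i j = (((ι i : Fin m₀) : ℕ) : ℤ) ^ (j : ℕ) :=
        Matrix.vandermonde_apply _ _ _
      rw [h3, abs_of_nonneg (by positivity)]
      have h4 : (ι i : ℕ) ^ (j : ℕ) ≤ m₀ ^ s :=
        (Nat.pow_le_pow_left (ι i).2.le _).trans (Nat.pow_le_pow_right hm₀ j.2.le)
      exact_mod_cast h4
    have heE : |e| ≤ (E : ℤ) := by
      have h5 : (E : ℤ) = |(Vm ι).det| * |e| := by
        rw [← abs_mul, ← he, abs_of_nonneg (by positivity)]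
      have h6 : 1 ≤ |(Vm ι).det| := Int.one_le_abs (hdet ι hι)
      rw [h5]
      nlinarith [abs_nonneg e]
    exact lattice_step (Vm ι) (hdet ι hι) E e he K
      (K_bound (Vm ι) (m₀ ^ s) E e (Nat.one_le_pow _ _ hm₀) hVB heE)
  set q : Fin s → ℕ := fun j => 1 + (x + (j : ℕ)) * E with hq
  have hcop : Pairwise (Function.onFun Nat.Coprime q) := fun i j hij => coprime_moduli hfE hij
  have hcopN : Nat.Coprime N (∏ j, q j) := by
    refine Nat.Coprime.prod_right fun j _ => ?_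
    have h5 : Nat.Coprime (1 + (x + (j : ℕ)) * E) E := by
      rw [Nat.coprime_add_mul_right_left]
      exact Nat.coprime_one_left _
    exact (Nat.Coprime.coprime_dvd_right hNE h5).symm
  have hq0 : ∀ j, 0 < q j := fun j => by
    simp only [hq]
    omega
  set n := N * ∏ j, q j with hn
  have hn0 : 0 < n := Nat.mul_pos hN (Finset.prod_pos fun j _ => hq0 j)
  let e1 : ZMod (N * ∏ j, q j) ≃+* ZMod N × ZMod (∏ j, q j) := ZMod.chineseRemainder hcopN
  let e2 : ZMod (∏ j, q j) ≃+* ∀ j, ZMod (q j) := ZMod.prodEquivPi q hcop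
  let γ : Fin m₀ × Fin (1 + x * E + 2 * K + 1) → ZMod (N * ∏ j, q j) := fun p =>
    e1.symm (a p.1, e2.symm fun j => (((p.2 : ℕ) : ZMod (q j)) *
      ((((p.1 : Fin m₀) : ℕ) : ℤ) ^ (j : ℕ) : ℤ)))
  refine ⟨hn0, univ.image γ, ?_, ?_⟩
  · refine Finset.card_image_le.trans ?_
    rw [Finset.card_univ, Fintype.card_prod, Fintype.card_fin, Fintype.card_fin]
  · ext z
    simp only [Set.mem_univ, iff_true]
    obtain ⟨S, hS, hSsum⟩ := ha (e1 z).1
    set ι : Fin s → Fin m₀ := fun i => S.orderEmbOfFin hS i with hι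
    have hιinj : Function.Injective ι := (S.orderEmbOfFin hS).injective
    have hιsum : ∑ i, a (ι i) = (e1 z).1 := by
      rw [← hSsum, ← Finset.image_orderEmbOfFin_univ S hS, Finset.sum_image]
      intro i _ j _ hij
      exact hιinj hij
    have hy : ∀ j, ∃ y : ℤ, (y : ZMod (q j)) = e2 (e1 z).2 j := fun j =>
      ZMod.intCast_surjective _
    choose y hy using hy
    obtain ⟨l, hl1, hl2⟩ := hKf ι hιinj x y
    have hl3 : ∀ i, l i < 1 + x * E + 2 * K + 1 := by
      intro i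
      have h1 := hl1 i
      omega
    refine ⟨(univ : Finset (Fin s)).val.map fun i => γ (ι i, ⟨l i, hl3 i⟩), ?_, ?_, ?_⟩
    · intro b hb
      obtain ⟨i, _, rfl⟩ := Multiset.mem_map.1 hb
      exact Finset.mem_image_of_mem _ (Finset.mem_univ _)
    · rw [Multiset.card_map]
      have : (univ : Finset (Fin s)).val.card = s := by
        change (univ : Finset (Fin s)).card = s
        simp
      rw [this]
    · change ∑ i, γ (ι i, ⟨l i, hl3 i⟩) = z
      apply e1.injective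
      rw [map_sum]
      have hγ : ∀ i, e1 (γ (ι i, ⟨l i, hl3 i⟩)) = (a (ι i), e2.symm fun j =>
          (((l i : ℕ) : ZMod (q j)) * ((((ι i : Fin m₀) : ℕ) : ℤ) ^ (j : ℕ) : ℤ))) := by
        intro i
        exact e1.apply_symm_apply _
      simp only [hγ]
      apply Prod.ext
      · rw [Prod.fst_sum]
        exact hιsum
      · rw [Prod.snd_sum]
        apply e2.injective
        rw [map_sum]
        simp only [RingEquiv.apply_symm_apply]
        funext j
        rw [Finset.sum_apply, ← hy j]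
        have h1 := hl2 j
        have h2 : ((∑ i, (l i : ℤ) * Vm ι i j - y j : ℤ) : ZMod (q j)) = 0 := by
          rw [ZMod.intCast_zmod_eq_zero_iff_dvd]
          exact h1
        push_cast at h2
        rw [sub_eq_zero] at h2
        rw [← h2]
        refine Finset.sum_congr rfl fun i _ => ?_
        have h3 : Vm ι i j = (((ι i : Fin m₀) : ℕ) : ℤ) ^ (j : ℕ) :=
          Matrix.vandermonde_apply _ _ _
        rw [h3]

end Pool.Agent.FMS
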