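import Pool.Agent.Lib_helper64.FMS.Defs

/-!
# Bases of cyclic groups with few elements: a second moment argument and greedy steps
-/

namespace Pool.Agent.FMS

open Finset

/-! ### The set of orders is bounded -/

theorem card_le_of_mem {m s n : ℕ} (h : n ∈ orders m s) : n ≤ (m + s).choose s := by
  classical
  obtain ⟨h1, A, hA, hs⟩ := h
  have : NeZero n := ⟨by omega⟩
  let g : Option {x // x ∈ A} → ZMod n := fun o => o.elim 0 fun a => a.1
  let φ : Sym (Option {x // x ∈ A}) s → ZMod n := fun σ =>
    ((σ : Multiset (Option {x // x ∈ A})).map g).sum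
  have hsurj : Function.Surjective φ := by
    intro x
    have hx : x ∈ sums s A := by rw [hs]; trivial
    obtain ⟨M, hM, hc, hsum⟩ := hx
    let e : {x // x ∈ M} → Option {x // x ∈ A} := fun a => some ⟨a.1, hM a.1 a.2⟩
    have hcard : (M.attach.map e + Multiset.replicate (s - M.card) none).card = s := by
      rw [Multiset.card_add, Multiset.card_map, Multiset.card_attach, Multiset.card_replicate]
      omega
    refine ⟨⟨_, hcard⟩, ?_⟩
    change ((M.attach.map e + Multiset.replicate (s - M.card) none).map g).sum = x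
    rw [Multiset.map_add, Multiset.sum_add, Multiset.map_map, Multiset.map_replicate,
      Multiset.sum_replicate]
    have he : g ∘ e = Subtype.val := rfl
    have hg : g none = 0 := rfl
    rw [he, hg, Multiset.attach_map_val, hsum, smul_zero, add_zero]
  have h2 := Fintype.card_le_of_surjective φ hsurj
  rw [ZMod.card, Sym.card_sym_eq_choose, Fintype.card_option, Fintype.card_coe] at h2
  refine h2.trans ?_
  have : A.card + 1 + s - 1 = A.card + s := by omega
  rw [this]
  exact Nat.choose_le_choose s (by omega)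

theorem bddAbove_orders (m s : ℕ) : BddAbove (orders m s) :=
  ⟨_, fun _ h => card_le_of_mem h⟩

theorem le_f {m s n : ℕ} (h : n ∈ orders m s) : n ≤ f m s := le_csSup (bddAbove_orders m s) h

theorem one_mem_orders (m s : ℕ) : 1 ∈ orders m s := by
  refine ⟨le_rfl, ∅, by simp, ?_⟩
  ext x
  simp only [Set.mem_univ, iff_true]
  exact ⟨0, by simp, by simp, Subsingleton.elim _ _⟩

theorem succ_mem_orders {m s : ℕ} (hm : 1 ≤ m) : s + 1 ∈ orders m s := by
  refine ⟨by omega, {1}, by simpa using hm, ?_⟩
  ext x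
  simp only [Set.mem_univ, iff_true]
  refine ⟨Multiset.replicate x.val 1, ?_, ?_, ?_⟩
  · intro a ha
    rw [Multiset.eq_of_mem_replicate ha]
    exact Finset.mem_singleton_self _
  · rw [Multiset.card_replicate]
    have := ZMod.val_lt x
    omega
  · rw [Multiset.sum_replicate, nsmul_eq_mul, mul_one, ZMod.natCast_zmod_val]

theorem orders_mono {m m' s s' n : ℕ} (hm : m ≤ m') (hs : s ≤ s') (h : n ∈ orders m s) :
    n ∈ orders m' s' := by
  obtain ⟨h1, A, hA, hs2⟩ := h
  refine ⟨h1, A, hA.trans hm, ?_⟩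
  ext x
  simp only [Set.mem_univ, iff_true]
  have hx : x ∈ sums s A := by rw [hs2]; trivial
  obtain ⟨M, a, b, c⟩ := hx
  exact ⟨M, a, b.trans hs, c⟩

/-! ### Second moment -/

section Moment

variable {N k : ℕ} {Λ : Type*}

/-- The linear combination with coefficients `w σ`. -/
def lin (w : Λ → Fin k → ZMod N) (a : Fin k → ZMod N) (σ : Λ) : ZMod N := ∑ j, w σ j * a j

theorem card_collision [Fact N.Prime] {w : Λ → Fin k → ZMod N} {σ τ : Λ} (h : w σ ≠ w τ) :
    (univ.filter fun a : Fin k → ZMod N => lin w a σ = lin w a τ).card * N ≤ N ^ k := by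
  classical
  obtain ⟨i, hi⟩ := Function.ne_iff.1 h
  set d : Fin k → ZMod N := fun j => w σ j - w τ j with hd
  have hdi : d i ≠ 0 := sub_ne_zero.2 hi
  have hval : ∀ a : Fin k → ZMod N, lin w a σ = lin w a τ ↔ ∑ j, d j * a j = 0 := by
    intro a
    unfold lin
    rw [← sub_eq_zero, ← Finset.sum_sub_distrib]
    simp only [hd, sub_mul]
  set S := univ.filter fun a : Fin k → ZMod N => lin w a σ = lin w a τ with hS
  have hinj : Set.InjOn (fun p : (Fin k → ZMod N) × ZMod N => p.1 + Pi.single i p.2)
      ((S ×ˢ (univ : Finset (ZMod N)) : Finset ((Fin k → ZMod N) × ZMod N)) :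
        Set ((Fin k → ZMod N) × ZMod N)) := by
    rintro ⟨a, c⟩ h1 ⟨a', c'⟩ h2 heq
    simp only [Finset.coe_product, Set.mem_prod, Finset.mem_coe, hS, Finset.mem_filter,
      Finset.mem_univ, true_and, and_true] at h1 h2
    rw [hval] at h1 h2
    simp only at heq
    have h3 : ∑ j, d j * (a + (Pi.single i c : Fin k → ZMod N)) j =
        ∑ j, d j * (a' + (Pi.single i c' : Fin k → ZMod N)) j := by
      rw [heq]
    have expand : ∀ (b : Fin k → ZMod N) (e : ZMod N),
        ∑ j, d j * (b + (Pi.single i e : Fin k → ZMod N)) j = ∑ j, d j * b j + d i * e := by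
      intro b e
      simp only [Pi.add_apply, mul_add, Finset.sum_add_distrib]
      congr 1
      rw [Finset.sum_eq_single i]
      · simp
      · intro j _ hj
        rw [Pi.single_eq_of_ne hj, mul_zero]
      · intro hni
        exact absurd (Finset.mem_univ i) hni
    rw [expand, expand, h1, h2, zero_add, zero_add] at h3
    have h4 : c = c' := mul_left_cancel₀ hdi h3
    subst h4
    have h5 : a = a' := add_right_cancel heq
    rw [h5]
  have h1 := Finset.card_le_card_of_injOn
    (s := (S ×ˢ (univ : Finset (ZMod N))))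
    (t := (univ : Finset (Fin k → ZMod N)))
    (fun p : (Fin k → ZMod N) × ZMod N => p.1 + Pi.single i p.2)
    (fun _ _ => Finset.mem_univ _) hinj
  rw [Finset.card_product, Finset.card_univ, ZMod.card, Finset.card_univ, Fintype.card_fun,
    ZMod.card, Fintype.card_fin] at h1
  exact h1

variable [Fintype Λ]

/-- The number of collisions for `a`. -/
def coll (w : Λ → Fin k → ZMod N) (a : Fin k → ZMod N) : ℕ :=
  (univ.filter fun p : Λ × Λ => lin w a p.1 = lin w a p.2).card

theorem exists_few_collisions [Fact N.Prime] {w : Λ → Fin k → ZMod N}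
    (hw : Function.Injective w) :
    ∃ a : Fin k → ZMod N, N * coll w a ≤ Fintype.card Λ * (N + Fintype.card Λ) := by
  classical
  have hN : 0 < N := (Fact.out : N.Prime).pos
  by_contra hcon
  push Not at hcon
  have h1 : ∑ a : Fin k → ZMod N, N * coll w a =
      ∑ p : Λ × Λ, (univ.filter fun a : Fin k → ZMod N =>
        lin w a p.1 = lin w a p.2).card * N := by
    simp only [coll, Finset.card_filter, Finset.mul_sum, Finset.sum_mul]
    rw [Finset.sum_comm]
    refine Finset.sum_congr rfl fun p _ => Finset.sum_congr rfl fun a _ => ?_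
    ring
  have h2 : ∑ p : Λ × Λ, (univ.filter fun a : Fin k → ZMod N =>
        lin w a p.1 = lin w a p.2).card * N ≤
      ∑ p : Λ × Λ, (N ^ k + if p.1 = p.2 then N ^ k * N else 0) := by
    refine Finset.sum_le_sum fun p _ => ?_
    by_cases hp : p.1 = p.2
    · rw [if_pos hp]
      have : (univ.filter fun a : Fin k → ZMod N => lin w a p.1 = lin w a p.2).card ≤ N ^ k := by
        refine (Finset.card_le_univ _).trans ?_
        rw [Fintype.card_fun, ZMod.card, Fintype.card_fin]
      exact (Nat.mul_le_mul_right N this).trans (Nat.le_add_left _ _)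
    · rw [if_neg hp, add_zero]
      exact card_collision (hw.ne hp)
  have h3 : ∑ p : Λ × Λ, (N ^ k + if p.1 = p.2 then N ^ k * N else 0) =
      N ^ k * (Fintype.card Λ * (N + Fintype.card Λ)) := by
    rw [Finset.sum_add_distrib, Finset.sum_const, Finset.card_univ, Fintype.card_prod,
      Fintype.sum_prod_type]
    have h0 : ∀ x : Λ, ∑ y : Λ, (if x = y then N ^ k * N else 0) = N ^ k * N := by
      intro x
      rw [Finset.sum_ite_eq, if_pos (Finset.mem_univ x)]
    have h0' : ∑ x : Λ, ∑ y : Λ, (if x = y then N ^ k * N else 0) =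
        Fintype.card Λ * (N ^ k * N) := by
      rw [Finset.sum_congr rfl fun x _ => h0 x, Finset.sum_const, Finset.card_univ, smul_eq_mul]
    rw [h0', smul_eq_mul]
    ring
  have h4 : ∑ _a : Fin k → ZMod N, (Fintype.card Λ * (N + Fintype.card Λ)) <
      ∑ a : Fin k → ZMod N, N * coll w a := by
    refine Finset.sum_lt_sum_of_nonempty ⟨0, Finset.mem_univ _⟩ fun a _ => hcon a
  rw [Finset.sum_const, Finset.card_univ, Fintype.card_fun, ZMod.card, Fintype.card_fin,
    smul_eq_mul, h1] at h4
  have := h2.trans h3.le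
  omega

/-- If `N` is a prime and there are `M` coefficient vectors, then for a suitable `a` at most
`N^2/(N+M)` of the residue classes are missed. -/
theorem exists_cover [Fact N.Prime] {w : Λ → Fin k → ZMod N} (hw : Function.Injective w) :
    ∃ a : Fin k → ZMod N, Fintype.card Λ * N ≤
      (N + Fintype.card Λ) * (univ.image fun σ : Λ => lin w a σ).card := by
  classical
  obtain ⟨a, ha⟩ := exists_few_collisions hw
  refine ⟨a, ?_⟩
  set M := Fintype.card Λ with hMdef
  set X := univ.image fun σ : Λ => lin w a σ with hX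
  set R : ZMod N → ℕ := fun x => (univ.filter fun σ : Λ => lin w a σ = x).card with hR
  have h1 : ∑ x ∈ X, R x = M := by
    rw [hMdef, ← Finset.card_univ, Finset.card_eq_sum_card_image (fun σ : Λ => lin w a σ)]
  have h2 : ∑ x ∈ X, R x ^ 2 = coll w a := by
    unfold coll
    have hc : (univ.filter fun p : Λ × Λ => lin w a p.1 = lin w a p.2) =
        X.biUnion fun x => (univ.filter fun σ : Λ => lin w a σ = x) ×ˢ
          (univ.filter fun σ : Λ => lin w a σ = x) := by
      ext ⟨p, q⟩
      simp only [Finset.mem_filter, Finset.mem_univ, true_and, Finset.mem_biUnion,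
        Finset.mem_product, hX, Finset.mem_image]
      constructor
      · intro h
        exact ⟨lin w a q, ⟨q, rfl⟩, h, rfl⟩
      · rintro ⟨x, _, h, h'⟩
        rw [h, h']
    rw [hc, Finset.card_biUnion]
    · refine Finset.sum_congr rfl fun x _ => ?_
      rw [Finset.card_product, sq]
    · intro x _ y _ hxy
      rw [Function.onFun, Finset.disjoint_left]
      rintro ⟨p, q⟩ hp hq
      simp only [Finset.mem_product, Finset.mem_filter, Finset.mem_univ, true_and] at hp hq
      exact hxy (hp.1.symm.trans hq.1)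
  have h3 : M ^ 2 ≤ X.card * coll w a := by
    rw [← h1, ← h2]
    exact_mod_cast sq_sum_le_card_mul_sum_sq (s := X) (f := R)
  rcases Nat.eq_zero_or_pos M with hM0 | hMpos
  · rw [hM0]
    simp
  have h4 : (M * N) * M ≤ ((N + M) * X.card) * M := by
    calc (M * N) * M = N * M ^ 2 := by ring
      _ ≤ N * (X.card * coll w a) := Nat.mul_le_mul_left _ h3
      _ = X.card * (N * coll w a) := by ring
      _ ≤ X.card * (M * (N + M)) := Nat.mul_le_mul_left _ ha
      _ = ((N + M) * X.card) * M := by ring
  exact Nat.le_of_mul_le_mul_right h4 hMpos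

/-- The number of missed classes. -/
theorem card_missed [NeZero N] {M : ℕ} {X : Finset (ZMod N)} (h : M * N ≤ (N + M) * X.card) :
    (univ \ X).card * (N + M) ≤ N * N := by
  classical
  have h1 : (univ \ X).card + X.card = N := by
    rw [Finset.card_sdiff_of_subset (Finset.subset_univ X), Finset.card_univ, ZMod.card]
    have : X.card ≤ N := by
      have := Finset.card_le_univ X
      rwa [ZMod.card] at this
    omega
  have h2 : (univ \ X).card * (N + M) + X.card * (N + M) = N * (N + M) := by
    rw [← Nat.add_mul, h1]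
  nlinarith [h2, h]

end Moment

/-! ### Greedy steps -/

theorem exists_shift {N : ℕ} [NeZero N] (Y' Y : Finset (ZMod N)) :
    ∃ b : ZMod N, (Y'.filter fun x => x - b ∈ Y).card * N ≤ Y'.card * Y.card := by
  classical
  by_contra hcon
  push Not at hcon
  have h1 : ∑ b : ZMod N, (Y'.filter fun x => x - b ∈ Y).card = Y'.card * Y.card := by
    simp only [Finset.card_filter]
    rw [Finset.sum_comm]
    have : ∀ x ∈ Y', ∑ b : ZMod N, (if x - b ∈ Y then 1 else 0) = Y.card := by
      intro x _
      rw [← Finset.card_filter]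
      refine Finset.card_bij (fun b _ => x - b) ?_ ?_ ?_
      · intro b hb
        exact (Finset.mem_filter.1 hb).2
      · intro b _ b' _ h
        exact sub_right_injective h
      · intro y hy
        exact ⟨x - y, by simpa using hy, by abel⟩
    rw [Finset.sum_congr rfl this, Finset.sum_const, smul_eq_mul]
  have h2 : ∑ _b : ZMod N, Y'.card * Y.card <
      ∑ b : ZMod N, (Y'.filter fun x => x - b ∈ Y).card * N :=
    Finset.sum_lt_sum_of_nonempty ⟨0, Finset.mem_univ _⟩ fun b _ => hcon b
  rw [Finset.sum_const, Finset.card_univ, ZMod.card, smul_eq_mul, ← Finset.sum_mul, h1] at h2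
  rw [mul_comm] at h2
  exact lt_irrefl _ h2

theorem exists_shifts {N : ℕ} [NeZero N] (Y : Finset (ZMod N)) (h : ℕ) :
    ∃ b : Fin h → ZMod N,
      (Y.filter fun x => ∀ i, x - b i ∈ Y).card * N ^ h ≤ Y.card ^ (h + 1) := by
  classical
  induction h with
  | zero =>
    refine ⟨Fin.elim0, ?_⟩
    simp
  | succ h ih =>
    obtain ⟨b, hb⟩ := ih
    obtain ⟨c, hc⟩ := exists_shift (Y.filter fun x => ∀ i, x - b i ∈ Y) Y
    refine ⟨Fin.snoc b c, ?_⟩
    have heq : (Y.filter fun x => ∀ i, x - (Fin.snoc b c : Fin (h + 1) → ZMod N) i ∈ Y) =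
        (Y.filter fun x => ∀ i, x - b i ∈ Y).filter fun x => x - c ∈ Y := by
      ext x
      simp only [Finset.mem_filter, Fin.forall_fin_succ', Fin.snoc_castSucc, Fin.snoc_last]
      tauto
    rw [heq]
    calc ((Y.filter fun x => ∀ i, x - b i ∈ Y).filter fun x => x - c ∈ Y).card * N ^ (h + 1) =
        (((Y.filter fun x => ∀ i, x - b i ∈ Y).filter fun x => x - c ∈ Y).card * N) * N ^ h := by
          ring
      _ ≤ ((Y.filter fun x => ∀ i, x - b i ∈ Y).card * Y.card) * N ^ h :=
          Nat.mul_le_mul_right _ hc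
      _ = ((Y.filter fun x => ∀ i, x - b i ∈ Y).card * N ^ h) * Y.card := by ring
      _ ≤ Y.card ^ (h + 1) * Y.card := Nat.mul_le_mul_right _ hb
      _ = Y.card ^ (h + 1 + 1) := by ring

/-- One greedy step for the number of missing elements. -/
theorem exists_shifts' {N : ℕ} [NeZero N] (Y : Finset (ZMod N)) (h P M : ℕ)
    (hY : Y.card * (N + M) ^ P ≤ N ^ (P + 1)) :
    ∃ b : Fin h → ZMod N,
      (Y.filter fun x => ∀ i, x - b i ∈ Y).card * (N + M) ^ (P * (h + 1)) ≤
        N ^ (P * (h + 1) + 1) := by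
  classical
  have hN : 0 < N := Nat.pos_of_ne_zero (NeZero.ne N)
  obtain ⟨b, hb⟩ := exists_shifts Y h
  refine ⟨b, ?_⟩
  have h1 : ((Y.filter fun x => ∀ i, x - b i ∈ Y).card * (N + M) ^ (P * (h + 1))) * N ^ h ≤
      N ^ (P * (h + 1) + 1) * N ^ h := by
    calc ((Y.filter fun x => ∀ i, x - b i ∈ Y).card * (N + M) ^ (P * (h + 1))) * N ^ h =
        ((Y.filter fun x => ∀ i, x - b i ∈ Y).card * N ^ h) * ((N + M) ^ P) ^ (h + 1) := by
          rw [pow_mul]; ring
      _ ≤ Y.card ^ (h + 1) * ((N + M) ^ P) ^ (h + 1) := Nat.mul_le_mul_right _ hb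
      _ = (Y.card * (N + M) ^ P) ^ (h + 1) := by rw [mul_pow]
      _ ≤ (N ^ (P + 1)) ^ (h + 1) := Nat.pow_le_pow_left hY _
      _ = N ^ (P * (h + 1) + 1) * N ^ h := by
        rw [← pow_mul, ← pow_add]
        congr 1
        ring
  exact Nat.le_of_mul_le_mul_right h1 (by positivity)

/-! ### The uniform lower bound -/

theorem step {N : ℕ} [NeZero N] {k s M : ℕ} {A : Finset (ZMod N)} (hA : A.card ≤ k)
    {Y : Finset (ZMod N)} (hY : ∀ x, x ∉ sums s A → x ∈ Y) {P : ℕ}
    (hc : Y.card * (N + M) ^ P ≤ N ^ (P + 1)) (h : ℕ) :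
    ∃ (A' : Finset (ZMod N)) (Y' : Finset (ZMod N)), A'.card ≤ k + h ∧
      (∀ x, x ∉ sums (s + 1) A' → x ∈ Y') ∧
      Y'.card * (N + M) ^ (P * (h + 1)) ≤ N ^ (P * (h + 1) + 1) := by
  classical
  obtain ⟨b, hb⟩ := exists_shifts' Y h P M hc
  refine ⟨A ∪ univ.image b, Y.filter fun x => ∀ i, x - b i ∈ Y, ?_, ?_, hb⟩
  · refine (Finset.card_union_le _ _).trans (Nat.add_le_add hA ?_)
    refine Finset.card_image_le.trans ?_
    simp
  · intro x hx
    rw [Finset.mem_filter]
    refine ⟨hY x fun hxs => hx ?_, fun i => hY (x - b i) fun hxs => hx ?_⟩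
    · obtain ⟨M, h1, h2, h3⟩ := hxs
      exact ⟨M, fun a ha => Finset.mem_union_left _ (h1 a ha), by omega, h3⟩
    · obtain ⟨M, h1, h2, h3⟩ := hxs
      refine ⟨b i ::ₘ M, ?_, ?_, ?_⟩
      · intro a ha
        rcases Multiset.mem_cons.1 ha with rfl | ha
        · exact Finset.mem_union_right _ (Finset.mem_image_of_mem b (Finset.mem_univ i))
        · exact Finset.mem_union_left _ (h1 a ha)
      · rw [Multiset.card_cons]; omega
      · rw [Multiset.sum_cons, h3]; abel

theorem steps {N : ℕ} [NeZero N] {k s M : ℕ} {A : Finset (ZMod N)} (hA : A.card ≤ k)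
    {Y : Finset (ZMod N)} (hY : ∀ x, x ∉ sums s A → x ∈ Y) (hc : Y.card * (N + M) ≤ N * N)
    (t : ℕ) (h : Fin t → ℕ) :
    ∃ (A' : Finset (ZMod N)) (Y' : Finset (ZMod N)), A'.card ≤ k + ∑ i, h i ∧
      (∀ x, x ∉ sums (s + t) A' → x ∈ Y') ∧
      Y'.card * (N + M) ^ (∏ i, (h i + 1)) ≤ N ^ ((∏ i, (h i + 1)) + 1) := by
  classical
  induction t with
  | zero => exact ⟨A, Y, by simpa using hA, hY, by simpa [sq] using hc⟩
  | succ t ih =>
    obtain ⟨A', Y', h1, h2, h3⟩ := ih fun i => h i.castSucc
    obtain ⟨A'', Y'', h4, h5, h6⟩ := step h1 h2 h3 (h (Fin.last t))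
    refine ⟨A'', Y'', ?_, h5, ?_⟩
    · rw [Fin.sum_univ_castSucc]
      omega
    · rw [Fin.prod_univ_castSucc]
      exact h6

theorem exists_multiset {N k : ℕ} (a : Fin k → ZMod N) (S : Multiset (Option (Fin k))) :
    ∃ M : Multiset (ZMod N), (∀ x ∈ M, x ∈ univ.image a) ∧ M.card ≤ S.card ∧
      M.sum = (S.map fun o => o.elim 0 a).sum := by
  classical
  induction S using Multiset.induction_on with
  | empty => exact ⟨0, by simp, by simp, by simp⟩
  | cons o S ih =>
    obtain ⟨M, h1, h2, h3⟩ := ih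
    cases o with
    | none =>
      refine ⟨M, h1, ?_, ?_⟩
      · rw [Multiset.card_cons]; omega
      · rw [Multiset.map_cons, Multiset.sum_cons, h3]
        simp
    | some i =>
      refine ⟨a i ::ₘ M, ?_, ?_, ?_⟩
      · intro x hx
        rcases Multiset.mem_cons.1 hx with rfl | hx
        · exact Finset.mem_image_of_mem a (Finset.mem_univ i)
        · exact h1 x hx
      · rw [Multiset.card_cons, Multiset.card_cons]; omega
      · rw [Multiset.sum_cons, Multiset.map_cons, Multiset.sum_cons, h3]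
        simp

/-- The coefficient vector of a multiset of indices (some of them blank). -/
def cnt (N : ℕ) {k s : ℕ} (σ : Sym (Option (Fin k)) s) (i : Fin k) : ZMod N :=
  ((σ : Multiset (Option (Fin k))).count (some i) : ZMod N)

theorem lin_cnt_mem {N k s : ℕ} (a : Fin k → ZMod N) (σ : Sym (Option (Fin k)) s) :
    lin (cnt N) a σ ∈ sums s (univ.image a) := by
  classical
  obtain ⟨M, h1, h2, h3⟩ := exists_multiset a (σ : Multiset (Option (Fin k)))
  refine ⟨M, h1, h2.trans σ.2.le, ?_⟩
  rw [h3, Finset.sum_multiset_map_count]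
  have h1 : ∑ m ∈ (σ : Multiset (Option (Fin k))).toFinset,
      Multiset.count m (σ : Multiset (Option (Fin k))) • (m.elim 0 a : ZMod N) =
      ∑ m : Option (Fin k), Multiset.count m (σ : Multiset (Option (Fin k))) •
        (m.elim 0 a : ZMod N) := by
    refine Finset.sum_subset (Finset.subset_univ _) ?_
    intro o _ ho
    rw [Multiset.mem_toFinset] at ho
    rw [Multiset.count_eq_zero_of_notMem ho, zero_smul]
  rw [h1, Fintype.sum_option]
  simp [lin, cnt, nsmul_eq_mul]

theorem cnt_injective {N k s : ℕ} (hs : s < N) :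
    Function.Injective (cnt N : Sym (Option (Fin k)) s → Fin k → ZMod N) := by
  classical
  intro σ τ h
  apply Subtype.ext
  have key : ∀ i : Fin k, (σ : Multiset (Option (Fin k))).count (some i) =
      (τ : Multiset (Option (Fin k))).count (some i) := by
    intro i
    have h1 := congrFun h i
    unfold cnt at h1
    rw [ZMod.natCast_eq_natCast_iff'] at h1
    have b1 : (σ : Multiset (Option (Fin k))).count (some i) ≤ s :=
      (Multiset.count_le_card _ _).trans σ.2.le
    have b2 : (τ : Multiset (Option (Fin k))).count (some i) ≤ s :=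
      (Multiset.count_le_card _ _).trans τ.2.le
    rwa [Nat.mod_eq_of_lt (by omega), Nat.mod_eq_of_lt (by omega)] at h1
  have hσ := Multiset.sum_count_eq_card (s := (univ : Finset (Option (Fin k))))
    (m := (σ : Multiset (Option (Fin k)))) (fun _ _ => Finset.mem_univ _)
  have hτ := Multiset.sum_count_eq_card (s := (univ : Finset (Option (Fin k))))
    (m := (τ : Multiset (Option (Fin k)))) (fun _ _ => Finset.mem_univ _)
  rw [Fintype.sum_option] at hσ hτ
  have e : ∑ i : Fin k, (σ : Multiset (Option (Fin k))).count (some i) =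
      ∑ i : Fin k, (τ : Multiset (Option (Fin k))).count (some i) :=
    Finset.sum_congr rfl fun i _ => key i
  have c1 : (σ : Multiset (Option (Fin k))).card = s := σ.2
  have c2 : (τ : Multiset (Option (Fin k))).card = s := τ.2
  ext o
  cases o with
  | none =>
    change (σ : Multiset (Option (Fin k))).count none = (τ : Multiset (Option (Fin k))).count none
    omega
  | some i => exact key i

/-- The main construction. -/
theorem mem_orders {k r t N : ℕ} (h : Fin t → ℕ) (hN : N.Prime) (hr : r < N)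
    (h1 : N ^ ((∏ i, (h i + 1)) + 1) < (N + (k + r).choose r) ^ (∏ i, (h i + 1))) :
    N ∈ orders (k + ∑ i, h i) (r + t) := by
  classical
  have : Fact N.Prime := ⟨hN⟩
  have : NeZero N := ⟨hN.ne_zero⟩
  have hcard : Fintype.card (Sym (Option (Fin k)) r) = (k + r).choose r := by
    rw [Sym.card_sym_eq_choose, Fintype.card_option, Fintype.card_fin]
    congr 1
    omega
  obtain ⟨a, ha⟩ := exists_cover (N := N) (k := k) (cnt_injective (k := k) hr)
  rw [hcard] at ha
  set M := (k + r).choose r with hM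
  set X := univ.image fun σ : Sym (Option (Fin k)) r => lin (cnt N) a σ with hX
  have hA : (univ.image a).card ≤ k := by
    refine Finset.card_image_le.trans ?_
    simp
  obtain ⟨A', Y', h3, h4, h5⟩ := steps (N := N) (k := k) (s := r) (A := univ.image a) hA
    (Y := univ \ X) (by
      intro x hx
      rw [Finset.mem_sdiff]
      refine ⟨Finset.mem_univ _, fun hxX => hx ?_⟩
      obtain ⟨σ, _, rfl⟩ := Finset.mem_image.1 hxX
      exact lin_cnt_mem a σ) (card_missed ha) t h
  refine ⟨hN.one_lt.le, A', h3, ?_⟩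
  have h6 : Y'.card = 0 := by
    by_contra hne
    have : 1 ≤ Y'.card := Nat.one_le_iff_ne_zero.2 hne
    have := Nat.mul_le_mul_right ((N + M) ^ (∏ i, (h i + 1))) this
    omega
  rw [Finset.card_eq_zero] at h6
  ext x
  simp only [Set.mem_univ, iff_true]
  by_contra hx
  have := h4 x hx
  rw [h6] at this
  exact absurd this (Finset.notMem_empty x)

/-- The lower bound for `f`. -/
theorem lt_f {k r t N : ℕ} (h : Fin t → ℕ)
    (h1 : (2 * N) ^ ((∏ i, (h i + 1)) + 1) < (2 * N + (k + r).choose r) ^ (∏ i, (h i + 1))) :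
    N < f (k + ∑ i, h i) (r + t) := by
  have hf1 : 1 ≤ f (k + ∑ i, h i) (r + t) := le_f (one_mem_orders _ _)
  rcases Nat.eq_zero_or_pos N with rfl | hN0
  · omega
  rcases Nat.eq_zero_or_pos (k + ∑ i, h i) with hz | hpos
  · exfalso
    have hk : k = 0 := by omega
    have hs : ∀ i, h i = 0 := by
      intro i
      have : h i ≤ ∑ i, h i := Finset.single_le_sum (fun _ _ => Nat.zero_le _) (Finset.mem_univ i)
      omega
    have hp : ∏ i, (h i + 1) = 1 := by
      simp [hs]
    rw [hp, hk, Nat.zero_add, Nat.choose_self, pow_one, pow_succ, pow_one] at h1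
    nlinarith
  rcases Nat.lt_or_ge N r with hNr | hNr
  · have h2 : (r + t) + 1 ≤ f (k + ∑ i, h i) (r + t) := le_f (succ_mem_orders hpos)
    omega
  obtain ⟨p, hp, hp1, hp2⟩ := Nat.exists_prime_lt_and_le_two_mul N (by omega)
  set H := ∏ i, (h i + 1) with hH
  set M := (k + r).choose r with hM
  have h2 : p ^ (H + 1) < (p + M) ^ H := by
    by_contra hcon
    push Not at hcon
    -- `(p + M) * (2N) ≥ p * (2N + M)`
    have h3 : p * (2 * N + M) ≤ (2 * N) * (p + M) := by nlinarith
    have h4 : (p * (2 * N + M)) ^ H ≤ ((2 * N) * (p + M)) ^ H := Nat.pow_le_pow_left h3 H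
    rw [mul_pow, mul_pow] at h4
    have h5 : p ^ H * (2 * N + M) ^ H ≤ (2 * N) ^ H * p ^ (H + 1) :=
      h4.trans (Nat.mul_le_mul_left _ hcon)
    have h6 : (2 * N) ^ H * p ^ (H + 1) ≤ p ^ H * (2 * N) ^ (H + 1) := by
      calc (2 * N) ^ H * p ^ (H + 1) = (p ^ H * (2 * N) ^ H) * p := by ring
        _ ≤ (p ^ H * (2 * N) ^ H) * (2 * N) := Nat.mul_le_mul_left _ hp2
        _ = p ^ H * (2 * N) ^ (H + 1) := by ring
    have h7 : (2 * N + M) ^ H ≤ (2 * N) ^ (H + 1) :=
      Nat.le_of_mul_le_mul_left (h5.trans h6) (pow_pos hp.pos H)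
    omega
  have h3 : p ≤ f (k + ∑ i, h i) (r + t) := le_f (mem_orders h hp (by omega) h2)
  omega

end Pool.Agent.FMS
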