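import Mathlib

/-!
# Largest order of a cyclic group with an `s`-basis of `m` elements: definitions
-/

namespace Pool.Agent.FMS

/-- `sums s A` is the set `[0,s]A` of all sums of at most `s` elements of `A`, repetitions
allowed, the empty sum included. -/
def sums {n : ℕ} (s : ℕ) (A : Finset (ZMod n)) : Set (ZMod n) :=
  {x | ∃ M : Multiset (ZMod n), (∀ a ∈ M, a ∈ A) ∧ M.card ≤ s ∧ M.sum = x}

/-- The positive integers `n` for which the cyclic group `ZMod n` has an `s`-basis with at most
`m` elements. -/
def orders (m s : ℕ) : Set ℕ :=
  {n | 1 ≤ n ∧ ∃ A : Finset (ZMod n), A.card ≤ m ∧ sums s A = Set.univ}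

/-- `f m s` is the largest order of a cyclic group that has an `s`-basis with at most `m`
elements. -/
noncomputable def f (m s : ℕ) : ℕ := sSup (orders m s)

end Pool.Agent.FMS
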