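import Pool.Agent.Lib_helper64.FMS.Blow

/-!
# Fixed number of summands: growth in the number of elements
-/

namespace Pool.Agent.FMS

open Finset Filter

theorem growth_explicit {s m₀ N : ℕ} (hN : 0 < N) (hm₀ : 0 < m₀) (a : Fin m₀ → ZMod N)
    (ha : Seed s a) {m : ℕ}
    (hm : (2 * s * (2 * blowK s m₀ N + 3 + blowE s m₀ N) +
      (2 * blowK s m₀ N + 3 + blowE s m₀ N)) * m₀ ≤ m) :
    m ^ s * N ≤ 2 * m₀ ^ s * f m s := by
  have h := blow hN hm₀ a ha
  have hE : 0 < blowE s m₀ N := blowE_pos hN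
  set E : ℕ := blowE s m₀ N with hEdef
  set K : ℕ := blowK s m₀ N with hKdef
  set c : ℕ := 2 * K + 3 + E with hc
  set d := m / m₀ with hd
  have hdm : m₀ * d ≤ m := Nat.mul_div_le m m₀
  have hdm2 : m < m₀ * (d + 1) := by
    rw [mul_comm]
    exact Nat.lt_mul_of_div_lt (Nat.lt_succ_self _) hm₀
  have hdc : c ≤ d := by
    rw [hd, Nat.le_div_iff_mul_le hm₀]
    refine le_trans ?_ hm
    exact Nat.mul_le_mul_right _ (Nat.le_add_left _ _)
  set x := (d - (2 * K + 2)) / E with hx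
  have hx1 : x * E ≤ d - (2 * K + 2) := Nat.div_mul_le_self _ _
  have hx2 : d - (2 * K + 2) < x * E + E := by
    have := Nat.lt_div_mul_add (a := d - (2 * K + 2)) hE
    exact this
  have h1 : N * ∏ j : Fin s, (1 + (x + (j : ℕ)) * E) ≤ f m s := by
    refine le_f (orders_mono ?_ le_rfl (h x))
    refine le_trans (Nat.mul_le_mul_left _ ?_) hdm
    omega
  have h2 : (x * E) ^ s ≤ ∏ j : Fin s, (1 + (x + (j : ℕ)) * E) := by
    calc (x * E) ^ s = ∏ _j : Fin s, (x * E) := by simp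
      _ ≤ ∏ j : Fin s, (1 + (x + (j : ℕ)) * E) := by
        refine Finset.prod_le_prod' fun j _ => ?_
        have : x * E ≤ (x + (j : ℕ)) * E := Nat.mul_le_mul_right _ (Nat.le_add_right _ _)
        omega
  have h3 : m ≤ m₀ * (x * E + c) := by
    refine hdm2.le.trans (Nat.mul_le_mul_left _ ?_)
    omega
  have h4 : 2 * s * c ≤ x * E + c := by
    have h5 : (2 * s * c + c) * m₀ ≤ m₀ * (x * E + c) := hm.trans h3
    have h6 : 2 * s * c + c ≤ x * E + c := by
      rw [mul_comm m₀] at h5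
      exact Nat.le_of_mul_le_mul_right h5 hm₀
    omega
  have h7 : (x * E + c) ^ s ≤ 2 * (x * E) ^ s := by
    have hv : (0 : ℝ) < ((x * E + c : ℕ) : ℝ) := by
      have : 0 < x * E + c := by omega
      exact_mod_cast this
    set v : ℝ := ((x * E + c : ℕ) : ℝ) with hvdef
    have hcv : (c : ℝ) ≤ v := by
      rw [hvdef]
      exact_mod_cast (Nat.le_add_left c (x * E))
    have h8 : (1 : ℝ) + (s : ℝ) * (-(c : ℝ) / v) ≤ (1 + (-(c : ℝ) / v)) ^ s := by
      apply one_add_mul_le_pow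
      rw [le_div_iff₀ hv]
      nlinarith
    have h9 : (1 : ℝ) / 2 ≤ 1 + (s : ℝ) * (-(c : ℝ) / v) := by
      have h10 : (s : ℝ) * (c : ℝ) / v ≤ 1 / 2 := by
        rw [div_le_iff₀ hv]
        have h11 : ((2 * s * c : ℕ) : ℝ) ≤ v := by
          rw [hvdef]
          exact_mod_cast h4
        push_cast at h11
        linarith
      have h12 : (s : ℝ) * (-(c : ℝ) / v) = -((s : ℝ) * (c : ℝ) / v) := by ring
      rw [h12]
      linarith
    have h13 : ((x * E : ℕ) : ℝ) = v * (1 + (-(c : ℝ) / v)) := by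
      rw [mul_add, mul_one, mul_div_cancel₀ _ hv.ne', hvdef]
      push_cast
      ring
    have h14 : v ^ s ≤ 2 * ((x * E : ℕ) : ℝ) ^ s := by
      rw [h13, mul_pow]
      have h15 : (0 : ℝ) < v ^ s := pow_pos hv s
      nlinarith [h8, h9]
    have h16 : (((x * E + c) ^ s : ℕ) : ℝ) ≤ ((2 * (x * E) ^ s : ℕ) : ℝ) := by
      push_cast
      push_cast at h14
      rw [hvdef] at h14
      push_cast at h14
      exact h14
    exact_mod_cast h16
  calc m ^ s * N ≤ (m₀ * (x * E + c)) ^ s * N :=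
        Nat.mul_le_mul_right _ (Nat.pow_le_pow_left h3 s)
    _ = m₀ ^ s * ((x * E + c) ^ s) * N := by rw [mul_pow]
    _ ≤ m₀ ^ s * (2 * (x * E) ^ s) * N :=
        Nat.mul_le_mul_right _ (Nat.mul_le_mul_left _ h7)
    _ = 2 * m₀ ^ s * (N * (x * E) ^ s) := by ring
    _ ≤ 2 * m₀ ^ s * f m s :=
        Nat.mul_le_mul_left _ ((Nat.mul_le_mul_left _ h2).trans h1)

theorem growth {s m₀ N : ℕ} (hN : 0 < N) (hm₀ : 0 < m₀) (a : Fin m₀ → ZMod N)
    (ha : Seed s a) : ∀ᶠ m : ℕ in atTop, m ^ s * N ≤ 2 * m₀ ^ s * f m s := by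
  filter_upwards [eventually_ge_atTop ((2 * s * (2 * blowK s m₀ N + 3 + blowE s m₀ N) +
      (2 * blowK s m₀ N + 3 + blowE s m₀ N)) * m₀)] with m hm
  exact growth_explicit hN hm₀ a ha hm

/-- A seed from random elements and one greedy step. -/
theorem exists_seed {k r h N : ℕ} (hN : N.Prime)
    (h1 : N ^ (h + 1 + 1) < (N + k.choose r) ^ (h + 1)) :
    ∃ a : Fin (k + (h + 1)) → ZMod N, Seed (r + 1) a := by
  classical
  have : Fact N.Prime := ⟨hN⟩
  have : NeZero N := ⟨hN.ne_zero⟩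
  set w : {S : Finset (Fin k) // S.card = r} → Fin k → ZMod N := fun σ j =>
    if j ∈ σ.1 then 1 else 0 with hw
  have hwinj : Function.Injective w := by
    intro σ τ hστ
    apply Subtype.ext
    ext j
    have h3 := congrFun hστ j
    simp only [hw] at h3
    by_cases h4 : j ∈ σ.1 <;> by_cases h5 : j ∈ τ.1 <;> simp_all
  have hcard : Fintype.card {S : Finset (Fin k) // S.card = r} = k.choose r := by
    rw [Fintype.card_finset_len, Fintype.card_fin]
  obtain ⟨a, ha⟩ := exists_cover (N := N) hwinj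
  rw [hcard] at ha
  set M := k.choose r with hM
  set X := univ.image fun σ : {S : Finset (Fin k) // S.card = r} => lin w a σ with hX
  have hY : (univ \ X).card * (N + M) ^ 1 ≤ N ^ (1 + 1) := by
    rw [pow_one, pow_succ, pow_one]
    exact card_missed ha
  obtain ⟨b, hb⟩ := exists_shifts' (univ \ X) h 1 M hY
  have hempty : ((univ \ X).filter fun x => ∀ i, x - b i ∈ univ \ X) = ∅ := by
    rw [← Finset.card_eq_zero]
    by_contra hne
    have h3 : 1 ≤ ((univ \ X).filter fun x => ∀ i, x - b i ∈ univ \ X).card :=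
      Nat.one_le_iff_ne_zero.2 hne
    have h4 := Nat.mul_le_mul_right ((N + M) ^ (1 * (h + 1))) h3
    rw [one_mul] at h4 hb
    rw [one_mul] at h4
    omega
  have hcov : ∀ g : ZMod N, ∃ (S : Finset (Fin k)) (o : Option (Fin h)), S.card = r ∧
      ∑ j ∈ S, a j + o.elim 0 b = g := by
    intro g
    have hX' : ∀ z, z ∈ X → ∃ S : Finset (Fin k), S.card = r ∧ ∑ j ∈ S, a j = z := by
      intro z hz
      obtain ⟨σ, _, rfl⟩ := Finset.mem_image.1 hz
      refine ⟨σ.1, σ.2, ?_⟩
      simp only [lin, hw, ite_mul, one_mul, zero_mul]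
      rw [Finset.sum_ite_mem, Finset.univ_inter]
    by_cases hg : g ∈ X
    · obtain ⟨S, h3, h4⟩ := hX' g hg
      exact ⟨S, none, h3, by simp [h4]⟩
    · have h5 : g ∉ (univ \ X).filter fun x => ∀ i, x - b i ∈ univ \ X := by
        rw [hempty]
        exact Finset.notMem_empty g
      rw [Finset.mem_filter] at h5
      push Not at h5
      obtain ⟨i, hi⟩ := h5 (Finset.mem_sdiff.2 ⟨Finset.mem_univ _, hg⟩)
      have h6 : g - b i ∈ X := by
        by_contra hcon
        exact hi (Finset.mem_sdiff.2 ⟨Finset.mem_univ _, hcon⟩)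
      obtain ⟨S, h3, h4⟩ := hX' _ h6
      exact ⟨S, some i, h3, by simp [h4]⟩
  have hct : Fintype.card (Fin k ⊕ Option (Fin h)) = k + (h + 1) := by
    simp
  let e : Fin k ⊕ Option (Fin h) ≃ Fin (k + (h + 1)) := Fintype.equivFinOfCardEq hct
  let c : Fin k ⊕ Option (Fin h) → ZMod N := Sum.elim a fun o => o.elim 0 b
  refine ⟨fun i => c (e.symm i), fun g => ?_⟩
  obtain ⟨S, o, hS, hg⟩ := hcov g
  set T : Finset (Fin k ⊕ Option (Fin h)) := S.disjSum {o} with hT
  refine ⟨T.map e.toEmbedding, ?_, ?_⟩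
  · rw [Finset.card_map, hT, Finset.card_disjSum, hS, Finset.card_singleton]
  · rw [Finset.sum_map]
    simp only [Equiv.coe_toEmbedding, Equiv.symm_apply_apply]
    rw [hT, Finset.sum_disjSum]
    simpa [c] using hg

end Pool.Agent.FMS
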