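import Pool.Agent.Lib_helper64.FMS.Core

/-!
# Nearly cubic lattices
-/

namespace Pool.Agent.FMS

open Finset Matrix

/-- Let `V` be an integer matrix whose nonzero determinant divides `E`. Every vector of residues
modulo the numbers `1 + (x+j)E` is a combination of the rows of `V` with coefficients between `0`
and `1 + xE + 2K`, where `K` does not depend on `x`. -/
theorem lattice_step {s : ℕ} (V : Matrix (Fin s) (Fin s) ℤ) (hV : V.det ≠ 0) (E : ℕ) (e : ℤ)
    (he : (E : ℤ) = V.det * e) (K : ℕ)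
    (hK : ∀ i, ∑ j, ((V * Matrix.diagonal (fun j : Fin s => ((j : ℕ) : ℤ)) *
      (e • V.adjugate)) j i).natAbs ≤ K) :
    ∀ (x : ℕ) (y : Fin s → ℤ), ∃ l : Fin s → ℕ, (∀ i, l i ≤ 1 + x * E + 2 * K) ∧
      ∀ j : Fin s, ((1 + (x + (j : ℕ)) * E : ℕ) : ℤ) ∣ (∑ i, (l i : ℤ) * V i j) - y j := by
  classical
  intro x y
  set W : Matrix (Fin s) (Fin s) ℤ := e • V.adjugate with hW
  have hWV : W * V = (E : ℤ) • (1 : Matrix (Fin s) (Fin s) ℤ) := by
    rw [hW, Matrix.smul_mul, Matrix.adjugate_mul, smul_smul, he, mul_comm]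
  set Dg : Matrix (Fin s) (Fin s) ℤ := Matrix.diagonal fun j => ((j : ℕ) : ℤ) with hDg
  set C : Matrix (Fin s) (Fin s) ℤ := V * Dg * W with hC
  set q : ℤ := 1 + x * E with hq
  set B : Matrix (Fin s) (Fin s) ℤ := q • (1 : Matrix (Fin s) (Fin s) ℤ) + C with hB
  have hBV : B * V = V * Matrix.diagonal (fun j : Fin s => (1 + (x + (j : ℕ)) * E : ℤ)) := by
    have h1 : C * V = (E : ℤ) • (V * Dg) := by
      rw [hC, Matrix.mul_assoc, hWV, Matrix.mul_smul, Matrix.mul_one]
    rw [hB, Matrix.add_mul, h1, Matrix.smul_mul, Matrix.one_mul]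
    ext i j
    rw [Matrix.add_apply, Matrix.smul_apply, Matrix.smul_apply, hDg, Matrix.mul_diagonal,
      Matrix.mul_diagonal, smul_eq_mul, smul_eq_mul, hq]
    ring
  have hBdet : B.det ≠ 0 := by
    intro h0
    have h1 := congrArg Matrix.det hBV
    rw [Matrix.det_mul, Matrix.det_mul, h0, zero_mul, Matrix.det_diagonal] at h1
    have h2 : ∏ j : Fin s, (1 + (x + (j : ℕ)) * E : ℤ) ≠ 0 := by
      rw [Finset.prod_ne_zero_iff]
      intro j _
      positivity
    exact (mul_ne_zero hV h2) h1.symm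
  set lam : Fin s → ℤ := fun i => -∑ j, y j * (x + (j : ℕ)) * W j i with hlam
  have hlamV : ∀ j, ∑ i, lam i * V i j = y j - y j * (1 + (x + (j : ℕ)) * E) := by
    intro j
    have h1 : ∀ j', ∑ i, W j' i * V i j = if j' = j then (E : ℤ) else 0 := by
      intro j'
      have := congrFun (congrFun hWV j') j
      rw [Matrix.mul_apply] at this
      rw [this, Matrix.smul_apply, Matrix.one_apply]
      split_ifs <;> simp
    calc ∑ i, lam i * V i j = -∑ i, ∑ j', y j' * (x + (j' : ℕ)) * (W j' i * V i j) := by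
          rw [← Finset.sum_neg_distrib]
          refine Finset.sum_congr rfl fun i _ => ?_
          rw [hlam]
          simp only
          rw [neg_mul, Finset.sum_mul]
          congr 1
          refine Finset.sum_congr rfl fun j' _ => ?_
          ring
      _ = -∑ j', y j' * (x + (j' : ℕ)) * ∑ i, W j' i * V i j := by
          rw [Finset.sum_comm]
          congr 1
          refine Finset.sum_congr rfl fun j' _ => ?_
          rw [Finset.mul_sum]
      _ = -(y j * (x + (j : ℕ)) * E) := by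
          congr 1
          simp only [h1, mul_ite, mul_zero]
          rw [Finset.sum_ite_eq' univ j, if_pos (Finset.mem_univ j)]
      _ = y j - y j * (1 + (x + (j : ℕ)) * E) := by ring
  -- reduce modulo the lattice
  set B' : Matrix (Fin s) (Fin s) ℚ := B.map (Int.cast : ℤ → ℚ) with hB'
  have hB'det : IsUnit B'.det := by
    rw [isUnit_iff_ne_zero]
    have h1 : B'.det = ((B.det : ℤ) : ℚ) := by
      have := (Int.castRingHom ℚ).map_det B
      simpa [hB'] using this.symm
    rw [h1]
    exact_mod_cast hBdet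
  set u : Fin s → ℚ := fun i => (lam i : ℚ) - K with hu
  set μ : Fin s → ℚ := u ᵥ* B'⁻¹ with hμ
  have hμB : μ ᵥ* B' = u := by
    rw [hμ, Matrix.vecMul_vecMul, Matrix.nonsing_inv_mul _ hB'det, Matrix.vecMul_one]
  set ν : Fin s → ℤ := fun i => ⌊μ i⌋ with hν
  set Lv : Fin s → ℤ := fun i => lam i - ∑ j, ν j * B j i with hLv
  have hLvK : ∀ i, ((Lv i : ℤ) : ℚ) - K = q * Int.fract (μ i) +
      ∑ j, Int.fract (μ j) * ((C j i : ℤ) : ℚ) := by
    intro i
    have h1 : (u i : ℚ) = ∑ j, μ j * ((B j i : ℤ) : ℚ) := by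
      rw [← hμB]
      rfl
    have h2 : ∀ j, ((B j i : ℤ) : ℚ) = (if j = i then (q : ℚ) else 0) + ((C j i : ℤ) : ℚ) := by
      intro j
      rw [hB, Matrix.add_apply, Matrix.smul_apply, Matrix.one_apply]
      split_ifs <;> push_cast <;> simp
    have h3 : ((Lv i : ℤ) : ℚ) - K = ∑ j, Int.fract (μ j) * ((B j i : ℤ) : ℚ) := by
      rw [hLv]
      push_cast
      have h4 : (lam i : ℚ) - K = ∑ j, μ j * ((B j i : ℤ) : ℚ) := h1
      calc (lam i : ℚ) - ∑ j, (ν j : ℚ) * ((B j i : ℤ) : ℚ) - K =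
          ((lam i : ℚ) - K) - ∑ j, (ν j : ℚ) * ((B j i : ℤ) : ℚ) := by ring
        _ = ∑ j, (μ j * ((B j i : ℤ) : ℚ) - (ν j : ℚ) * ((B j i : ℤ) : ℚ)) := by
          rw [h4, Finset.sum_sub_distrib]
        _ = ∑ j, Int.fract (μ j) * ((B j i : ℤ) : ℚ) := by
          refine Finset.sum_congr rfl fun j _ => ?_
          rw [← sub_mul]
          rfl
    rw [h3]
    simp only [h2, mul_add, Finset.sum_add_distrib]
    congr 1
    simp only [mul_ite, mul_zero]
    rw [Finset.sum_ite_eq' univ i, if_pos (Finset.mem_univ i), mul_comm]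
  have hbound : ∀ i, |∑ j, Int.fract (μ j) * ((C j i : ℤ) : ℚ)| ≤ K := by
    intro i
    calc |∑ j, Int.fract (μ j) * ((C j i : ℤ) : ℚ)| ≤
        ∑ j, |Int.fract (μ j) * ((C j i : ℤ) : ℚ)| := Finset.abs_sum_le_sum_abs _ _
      _ ≤ ∑ j, (((C j i).natAbs : ℕ) : ℚ) := by
        refine Finset.sum_le_sum fun j _ => ?_
        rw [abs_mul, abs_of_nonneg (Int.fract_nonneg _)]
        have h5 : |((C j i : ℤ) : ℚ)| = (((C j i).natAbs : ℕ) : ℚ) := by
          rw [Nat.cast_natAbs, Int.cast_abs]
        rw [h5]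
        have h6 : (0 : ℚ) ≤ (((C j i).natAbs : ℕ) : ℚ) := Nat.cast_nonneg _
        nlinarith [Int.fract_lt_one (μ j)]
      _ ≤ K := by
        exact_mod_cast hK i
  have hq0 : (0 : ℚ) ≤ (q : ℚ) := by
    rw [hq]
    push_cast
    positivity
  have hLv0 : ∀ i, 0 ≤ Lv i := by
    intro i
    have h1 := hLvK i
    have h2 := abs_le.1 (hbound i)
    have h3 : 0 ≤ (q : ℚ) * Int.fract (μ i) := mul_nonneg hq0 (Int.fract_nonneg _)
    have h4 : (0 : ℚ) ≤ ((Lv i : ℤ) : ℚ) := by linarith [h2.1]
    exact_mod_cast h4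
  have hLv1 : ∀ i, Lv i ≤ q + 2 * K := by
    intro i
    have h1 := hLvK i
    have h2 := abs_le.1 (hbound i)
    have h3 : (q : ℚ) * Int.fract (μ i) ≤ q := by
      nlinarith [Int.fract_lt_one (μ i)]
    have h4 : ((Lv i : ℤ) : ℚ) ≤ ((q + 2 * K : ℤ) : ℚ) := by
      push_cast
      linarith [h2.2]
    exact_mod_cast h4
  refine ⟨fun i => (Lv i).toNat, fun i => ?_, fun j => ?_⟩
  · have h1 := hLv1 i
    have h2 := hLv0 i
    have h3 : (((Lv i).toNat : ℕ) : ℤ) ≤ ((1 + x * E + 2 * K : ℕ) : ℤ) := by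
      rw [Int.toNat_of_nonneg h2]
      push_cast
      rw [hq] at h1
      exact h1
    exact_mod_cast h3
  · have h1 : ∑ i, (((Lv i).toNat : ℕ) : ℤ) * V i j = ∑ i, Lv i * V i j := by
      refine Finset.sum_congr rfl fun i _ => ?_
      rw [Int.toNat_of_nonneg (hLv0 i)]
    have h2 : ∑ i, Lv i * V i j = (y j - y j * (1 + (x + (j : ℕ)) * E)) -
        (∑ i, ν i * V i j) * (1 + (x + (j : ℕ)) * E) := by
      rw [← hlamV j, hLv]
      simp only [sub_mul, Finset.sum_sub_distrib]
      congr 1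
      have h3 : ∀ i', ∑ i, B i' i * V i j = V i' j * (1 + (x + (j : ℕ)) * E) := by
        intro i'
        have := congrFun (congrFun hBV i') j
        rw [Matrix.mul_apply, Matrix.mul_diagonal] at this
        exact this
      calc ∑ i, (∑ j', ν j' * B j' i) * V i j = ∑ i, ∑ j', ν j' * (B j' i * V i j) := by
            refine Finset.sum_congr rfl fun i _ => ?_
            rw [Finset.sum_mul]
            refine Finset.sum_congr rfl fun j' _ => ?_
            ring
        _ = ∑ j', ν j' * ∑ i, B j' i * V i j := by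
            rw [Finset.sum_comm]
            refine Finset.sum_congr rfl fun j' _ => ?_
            rw [Finset.mul_sum]
        _ = (∑ i, ν i * V i j) * (1 + (x + (j : ℕ)) * E) := by
            rw [Finset.sum_mul]
            refine Finset.sum_congr rfl fun j' _ => ?_
            rw [h3]
            ring
    rw [h1, h2]
    refine ⟨-y j - ∑ i, ν i * V i j, ?_⟩
    push_cast
    ring

/-- A bound for the constant `K` of `lattice_step`. -/
theorem K_bound {s : ℕ} (V : Matrix (Fin s) (Fin s) ℤ) (B E : ℕ) (e : ℤ) (hB : 1 ≤ B)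
    (hVB : ∀ i j, |V i j| ≤ (B : ℤ)) (he : |e| ≤ (E : ℤ)) (i : Fin s) :
    ∑ j, ((V * Matrix.diagonal (fun j : Fin s => ((j : ℕ) : ℤ)) *
      (e • V.adjugate)) j i).natAbs ≤ s * (s * (B * s * (E * (s.factorial * B ^ s)))) := by
  classical
  have hadj : ∀ a b, |V.adjugate a b| ≤ ((s.factorial * B ^ s : ℕ) : ℤ) := by
    intro a b
    rw [Matrix.adjugate_apply]
    have h1 := Matrix.det_le (A := V.updateRow b (Pi.single a 1)) (abv := AbsoluteValue.abs)
      (x := (B : ℤ)) (by
        intro c d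
        rw [AbsoluteValue.abs_apply, Matrix.updateRow_apply]
        split_ifs with hcb
        · rw [Pi.single_apply]
          split_ifs
          · simpa using hB
          · simp
        · exact hVB c d)
    rw [AbsoluteValue.abs_apply, Fintype.card_fin, nsmul_eq_mul] at h1
    push_cast
    exact h1
  have hentry : ∀ j, |(V * Matrix.diagonal (fun j : Fin s => ((j : ℕ) : ℤ)) *
      (e • V.adjugate)) j i| ≤ ((s * (B * s * (E * (s.factorial * B ^ s))) : ℕ) : ℤ) := by
    intro j
    rw [Matrix.mul_apply]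
    calc |∑ l, (V * Matrix.diagonal (fun j : Fin s => ((j : ℕ) : ℤ))) j l *
          (e • V.adjugate) l i| ≤
        ∑ l, |(V * Matrix.diagonal (fun j : Fin s => ((j : ℕ) : ℤ))) j l *
          (e • V.adjugate) l i| := Finset.abs_sum_le_sum_abs _ _
      _ ≤ ∑ _l : Fin s, ((B * s * (E * (s.factorial * B ^ s)) : ℕ) : ℤ) := by
        refine Finset.sum_le_sum fun l _ => ?_
        rw [Matrix.mul_diagonal, abs_mul, abs_mul, Matrix.smul_apply, smul_eq_mul, abs_mul]
        push_cast
        have h1 : |((l : ℕ) : ℤ)| ≤ (s : ℤ) := by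
          rw [abs_of_nonneg (by positivity)]
          exact_mod_cast l.2.le
        have h2 := hadj l i
        push_cast at h2
        have h3 : |V j l| * |((l : ℕ) : ℤ)| ≤ (B : ℤ) * s :=
          mul_le_mul (hVB j l) h1 (abs_nonneg _) (by positivity)
        have h4 : |e| * |V.adjugate l i| ≤ (E : ℤ) * (s.factorial * (B : ℤ) ^ s) :=
          mul_le_mul he h2 (abs_nonneg _) (by positivity)
        exact mul_le_mul h3 h4 (by positivity) (by positivity)
      _ = ((s * (B * s * (E * (s.factorial * B ^ s))) : ℕ) : ℤ) := by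
        rw [Finset.sum_const, Finset.card_univ, Fintype.card_fin, nsmul_eq_mul]
        push_cast
        ring
  calc ∑ j, ((V * Matrix.diagonal (fun j : Fin s => ((j : ℕ) : ℤ)) *
      (e • V.adjugate)) j i).natAbs ≤
      ∑ _j : Fin s, s * (B * s * (E * (s.factorial * B ^ s))) := by
        refine Finset.sum_le_sum fun j _ => ?_
        have := hentry j
        rw [Int.abs_eq_natAbs] at this
        exact_mod_cast this
    _ = s * (s * (B * s * (E * (s.factorial * B ^ s)))) := by
        rw [Finset.sum_const, Finset.card_univ, Fintype.card_fin, smul_eq_mul]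

end Pool.Agent.FMS
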