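import Pool.Agent.Lib_helper64.FMS.Fixed

/-!
# Choice of the parameters
-/

namespace Pool.Agent.FMS

open Finset

theorem seed_params (s : ℕ) (hs : 2 ≤ s) :
    ∃ (m₀ N : ℕ) (a : Fin m₀ → ZMod N), 0 < N ∧ 0 < m₀ ∧ Seed s a ∧
      m₀ ^ s ≤ 60 * (s * Nat.clog 2 s * s.factorial) * N ∧ m₀ ≤ 11 * s ^ 3 ∧
      N ≤ (8 * s ^ 3) ^ s := by
  set L := Nat.clog 2 s with hL
  have hL1 : 1 ≤ L := by
    rw [hL]
    exact Nat.clog_pos one_lt_two hs
  have hsL : s ≤ 2 ^ L := Nat.le_pow_clog one_lt_two s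
  obtain ⟨r, rfl⟩ : ∃ r, s = r + 1 := ⟨s - 1, by omega⟩
  have hr : 1 ≤ r := by omega
  set k := 8 * (r + 1) ^ 2 * L with hk
  set M := k.choose r with hM
  set κ := k + 1 - r with hκ
  have hk1 : 8 * ((r + 1) * (r + 1)) ≤ k := by
    rw [hk]
    nlinarith [Nat.mul_le_mul_left (8 * (r + 1) ^ 2) hL1]
  have hrk : r ≤ k := by nlinarith
  have hκ1 : 7 * ((r + 1) * (r + 1)) * L ≤ κ := by
    have h1 : 7 * ((r + 1) * (r + 1)) * L + r ≤ k := by
      have h2 : k = 7 * ((r + 1) * (r + 1)) * L + ((r + 1) * (r + 1)) * L := by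
        rw [hk]
        ring
      have h3 : r ≤ ((r + 1) * (r + 1)) * L := by
        calc r ≤ (r + 1) * (r + 1) * 1 := by nlinarith
          _ ≤ ((r + 1) * (r + 1)) * L := Nat.mul_le_mul_left _ hL1
      omega
    omega
  have hκM : κ ^ r ≤ r.factorial * M := by
    rw [hM, ← Nat.descFactorial_eq_factorial_mul_choose]
    exact Nat.pow_sub_le_descFactorial k r
  have hM2 : 2 ≤ M := by
    have h1 : 2 * r.factorial ≤ κ ^ r := by
      have h2 : 2 * r ≤ κ := by
        have : 7 * ((r + 1) * (r + 1)) * 1 ≤ κ := (Nat.mul_le_mul_left _ hL1).trans hκ1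
        nlinarith
      calc 2 * r.factorial ≤ 2 ^ r * r ^ r := by
            refine Nat.mul_le_mul ?_ (Nat.factorial_le_pow r)
            calc 2 = 2 ^ 1 := rfl
              _ ≤ 2 ^ r := Nat.pow_le_pow_right (by norm_num) hr
        _ = (2 * r) ^ r := by rw [mul_pow]
        _ ≤ κ ^ r := Nat.pow_le_pow_left h2 r
    have h3 : r.factorial * 2 ≤ r.factorial * M := by
      rw [mul_comm r.factorial 2]
      exact h1.trans hκM
    exact Nat.le_of_mul_le_mul_left h3 (Nat.factorial_pos r)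
  obtain ⟨p, hp, hp1, hp2⟩ := Nat.exists_prime_lt_and_le_two_mul (M / 2) (by omega)
  have hpM : p ≤ M := by omega
  have hMp : M ≤ 2 * p := by omega
  set h := Nat.log 2 p with hh
  have hp3 : p < 2 ^ (h + 1) := Nat.lt_pow_succ_log_self one_lt_two p
  have hp4 : p ^ (h + 1 + 1) < (p + M) ^ (h + 1) := by
    calc p ^ (h + 1 + 1) = p * p ^ (h + 1) := by ring
      _ < 2 ^ (h + 1) * p ^ (h + 1) := Nat.mul_lt_mul_of_pos_right hp3 (pow_pos hp.pos _)
      _ = (p + p) ^ (h + 1) := by rw [← mul_pow, two_mul]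
      _ ≤ (p + M) ^ (h + 1) := Nat.pow_le_pow_left (by omega) _
  obtain ⟨a, ha⟩ := exists_seed hp hp4
  have hLs : L ≤ r + 1 := by
    rw [hL]
    exact Nat.clog_le_of_le_pow (Nat.lt_two_pow_self).le
  have hm1 : k + (h + 1) ≤ 11 * ((r + 1) * (r + 1)) * L := by
    have hh1 : h ≤ 6 * L * r := by
      have h1 : 2 ^ h ≤ p := Nat.pow_log_le_self 2 hp.ne_zero
      have h2 : p ≤ k ^ r := hpM.trans (Nat.choose_le_pow k r)
      have h3 : k ≤ 2 ^ (3 + 3 * L) := by
        calc k = 8 * ((r + 1) ^ 2 * L) := by rw [hk]; ring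
          _ ≤ 8 * ((2 ^ L) ^ 2 * 2 ^ L) := by
            refine Nat.mul_le_mul_left _ (Nat.mul_le_mul (Nat.pow_le_pow_left hsL 2) ?_)
            exact (Nat.lt_two_pow_self).le
          _ = 2 ^ (3 + 3 * L) := by
            rw [pow_add, mul_comm 3 L, pow_mul]
            ring
      have h4 : 2 ^ h ≤ 2 ^ ((3 + 3 * L) * r) := by
        rw [pow_mul]
        exact h1.trans (h2.trans (Nat.pow_le_pow_left h3 r))
      have h5 : h ≤ (3 + 3 * L) * r := (Nat.pow_le_pow_iff_right one_lt_two).1 h4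
      refine h5.trans (Nat.mul_le_mul_right _ ?_)
      omega
    have h1 : 6 * L * r + 1 ≤ 3 * ((r + 1) * (r + 1)) * L := by
      have h2 : 3 * ((r + 1) * (r + 1)) * L = 6 * L * r + 3 * L * (r * r + 1) := by ring
      have h3 : 1 * 1 ≤ 3 * L * (r * r + 1) := Nat.mul_le_mul (by omega) (by omega)
      omega
    have h2 : k = 8 * ((r + 1) * (r + 1)) * L := by rw [hk]; ring
    have h3 : 11 * ((r + 1) * (r + 1)) * L =
        8 * ((r + 1) * (r + 1)) * L + 3 * ((r + 1) * (r + 1)) * L := by ring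
    omega
  have hm1' : k + (h + 1) ≤ 11 * (r + 1) ^ 3 := by
    refine hm1.trans ?_
    calc 11 * ((r + 1) * (r + 1)) * L ≤ 11 * ((r + 1) * (r + 1)) * (r + 1) :=
          Nat.mul_le_mul_left _ hLs
      _ = 11 * (r + 1) ^ 3 := by ring
  have hpk : p ≤ (8 * (r + 1) ^ 3) ^ (r + 1) := by
    have h1 : k ≤ 8 * (r + 1) ^ 3 := by
      calc k = 8 * (r + 1) ^ 2 * L := hk
        _ ≤ 8 * (r + 1) ^ 2 * (r + 1) := Nat.mul_le_mul_left _ hLs
        _ = 8 * (r + 1) ^ 3 := by ring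
    calc p ≤ k ^ r := hpM.trans (Nat.choose_le_pow k r)
      _ ≤ (8 * (r + 1) ^ 3) ^ r := Nat.pow_le_pow_left h1 r
      _ ≤ (8 * (r + 1) ^ 3) ^ (r + 1) := Nat.pow_le_pow_right (by positivity) (Nat.le_succ r)
  refine ⟨k + (h + 1), p, a, hp.pos, by omega, ha, ?_, hm1', hpk⟩
  -- bound for `h`
  have hh1 : h ≤ 6 * L * r := by
    have h1 : 2 ^ h ≤ p := Nat.pow_log_le_self 2 hp.ne_zero
    have h2 : p ≤ k ^ r := hpM.trans (Nat.choose_le_pow k r)
    have h3 : k ≤ 2 ^ (3 + 3 * L) := by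
      calc k = 8 * ((r + 1) ^ 2 * L) := by rw [hk]; ring
        _ ≤ 8 * ((2 ^ L) ^ 2 * 2 ^ L) := by
          refine Nat.mul_le_mul_left _ (Nat.mul_le_mul (Nat.pow_le_pow_left hsL 2) ?_)
          exact (Nat.lt_two_pow_self).le
        _ = 2 ^ (3 + 3 * L) := by
          rw [pow_add, mul_comm 3 L, pow_mul]
          ring
    have h4 : 2 ^ h ≤ 2 ^ ((3 + 3 * L) * r) := by
      rw [pow_mul]
      exact h1.trans (h2.trans (Nat.pow_le_pow_left h3 r))
    have h5 : h ≤ (3 + 3 * L) * r := (Nat.pow_le_pow_iff_right one_lt_two).1 h4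
    refine h5.trans (Nat.mul_le_mul_right _ ?_)
    omega
  have hm2 : (r + 1) * (k + (h + 1)) ≤ (r + 1 + 1) * κ := by
    have h1 : k + (h + 1) ≤ κ + 7 * L * r := by
      have h2 : r ≤ L * r := by
        calc r = 1 * r := (one_mul r).symm
          _ ≤ L * r := Nat.mul_le_mul_right _ hL1
      have h3 : 7 * L * r = 6 * L * r + L * r := by ring
      omega
    have h4 : (r + 1) * (7 * L * r) ≤ κ := by
      refine le_trans ?_ hκ1
      have : 7 * ((r + 1) * (r + 1)) * L = (r + 1) * (7 * L * r) + (r + 1) * (7 * L) := by ring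
      omega
    calc (r + 1) * (k + (h + 1)) ≤ (r + 1) * (κ + 7 * L * r) := Nat.mul_le_mul_left _ h1
      _ = (r + 1) * κ + (r + 1) * (7 * L * r) := by ring
      _ ≤ (r + 1) * κ + κ := by omega
      _ = (r + 1 + 1) * κ := by ring
  set m := k + (h + 1) with hm
  have hm3 : (m : ℝ) ≤ κ * (1 + 1 / ((r : ℝ) + 1)) := by
    have h1 : ((r : ℝ) + 1) * m ≤ ((r : ℝ) + 1 + 1) * κ := by exact_mod_cast hm2
    have h2 : (0 : ℝ) < (r : ℝ) + 1 := by positivity
    have h3 : (κ : ℝ) * (1 + 1 / ((r : ℝ) + 1)) = (((r : ℝ) + 1 + 1) * κ) / ((r : ℝ) + 1) := by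
      field_simp
    rw [h3, le_div_iff₀ h2]
    linarith
  have hm4 : (m : ℝ) ^ r ≤ κ ^ r * 2.7182818286 := by
    have h1 : (1 + 1 / ((r : ℝ) + 1)) ^ r ≤ Real.exp 1 := by
      have h2 : (1 + 1 / ((r : ℝ) + 1)) ≤ Real.exp (1 / ((r : ℝ) + 1)) := by
        rw [add_comm]
        exact Real.add_one_le_exp _
      calc (1 + 1 / ((r : ℝ) + 1)) ^ r ≤ (Real.exp (1 / ((r : ℝ) + 1))) ^ r :=
            pow_le_pow_left₀ (by positivity) h2 r
        _ = Real.exp (r * (1 / ((r : ℝ) + 1))) := by rw [← Real.exp_nat_mul]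
        _ ≤ Real.exp 1 := by
          apply Real.exp_le_exp.2
          rw [mul_one_div, div_le_one (by positivity)]
          linarith
    calc (m : ℝ) ^ r ≤ (κ * (1 + 1 / ((r : ℝ) + 1))) ^ r :=
          pow_le_pow_left₀ (by positivity) hm3 r
      _ = (κ : ℝ) ^ r * (1 + 1 / ((r : ℝ) + 1)) ^ r := by rw [mul_pow]
      _ ≤ κ ^ r * 2.7182818286 :=
          mul_le_mul_of_nonneg_left (h1.trans Real.exp_one_lt_d9.le) (by positivity)
  have h8 : (κ : ℝ) ^ r ≤ r.factorial * (2 * p) := by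
    have : κ ^ r ≤ r.factorial * (2 * p) := hκM.trans (Nat.mul_le_mul_left _ hMp)
    exact_mod_cast this
  have h9 : (m : ℝ) ≤ 11 * (((r : ℝ) + 1) * ((r : ℝ) + 1)) * L := by exact_mod_cast hm1
  have h10 : ((m ^ (r + 1) : ℕ) : ℝ) ≤
      ((60 * ((r + 1) * L * (r + 1).factorial) * p : ℕ) : ℝ) := by
    push_cast
    have h11 : ((r + 1).factorial : ℝ) = ((r : ℝ) + 1) * r.factorial := by
      rw [Nat.factorial_succ]
      push_cast
      ring
    rw [h11, pow_succ]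
    have h12 : (0 : ℝ) ≤ (r.factorial : ℝ) * p := by positivity
    have h13 : (0 : ℝ) ≤ ((r : ℝ) + 1) * ((r : ℝ) + 1) * L := by positivity
    calc (m : ℝ) ^ r * m ≤ (r.factorial * (2 * p) * 2.7182818286) *
          (11 * (((r : ℝ) + 1) * ((r : ℝ) + 1)) * L) := by
          refine mul_le_mul ?_ h9 (by positivity) (by positivity)
          exact hm4.trans (mul_le_mul_of_nonneg_right h8 (by norm_num))
      _ = (2 * 2.7182818286 * 11) * ((((r : ℝ) + 1) * ((r : ℝ) + 1) * L) *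
          (r.factorial * p)) := by ring
      _ ≤ 60 * ((((r : ℝ) + 1) * ((r : ℝ) + 1) * L) * (r.factorial * p)) := by
          refine mul_le_mul_of_nonneg_right (by norm_num) (mul_nonneg h13 h12)
      _ = 60 * (((r : ℝ) + 1) * L * (((r : ℝ) + 1) * r.factorial)) * p := by ring
  exact_mod_cast h10

end Pool.Agent.FMS
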