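import Pool.Agent.Lib_helper64.FMS.Params

/-!
# The range `m ≥ 2 ^ (60 s⁶)`: explicit blow-up
-/

namespace Pool.Agent.FMS

open Finset

theorem pow_two_le_six {s : ℕ} (hs : 2 ≤ s) :
    16 * s ≤ s ^ 5 ∧ 8 * s ^ 2 ≤ s ^ 5 ∧ 4 * s ^ 3 ≤ s ^ 5 ∧ 2 * s ^ 5 ≤ s ^ 6 := by
  have h2 : 2 ^ 2 ≤ s ^ 2 := Nat.pow_le_pow_left hs 2
  have h3 : 2 ^ 3 ≤ s ^ 3 := Nat.pow_le_pow_left hs 3
  have h4 : 2 ^ 4 ≤ s ^ 4 := Nat.pow_le_pow_left hs 4
  refine ⟨?_, ?_, ?_, ?_⟩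
  · calc 16 * s = 2 ^ 4 * s := by norm_num
      _ ≤ s ^ 4 * s := Nat.mul_le_mul_right _ h4
      _ = s ^ 5 := by ring
  · calc 8 * s ^ 2 = 2 ^ 3 * s ^ 2 := by norm_num
      _ ≤ s ^ 3 * s ^ 2 := Nat.mul_le_mul_right _ h3
      _ = s ^ 5 := by ring
  · calc 4 * s ^ 3 = 2 ^ 2 * s ^ 3 := by norm_num
      _ ≤ s ^ 2 * s ^ 3 := Nat.mul_le_mul_right _ h2
      _ = s ^ 5 := by ring
  · calc 2 * s ^ 5 ≤ s * s ^ 5 := Nat.mul_le_mul_right _ hs
      _ = s ^ 6 := by ring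

theorem m₀_le {s m₀ : ℕ} (hm₀ : m₀ ≤ 11 * s ^ 3) : m₀ ≤ 2 ^ (4 + 3 * s) := by
  have h2 : s < 2 ^ s := Nat.lt_two_pow_self
  calc m₀ ≤ 11 * s ^ 3 := hm₀
    _ ≤ 16 * (2 ^ s) ^ 3 := Nat.mul_le_mul (by norm_num) (Nat.pow_le_pow_left h2.le 3)
    _ = 2 ^ (4 + 3 * s) := by
      rw [← pow_mul, pow_add, mul_comm s 3]
      norm_num

theorem factorial_le_two_pow (s : ℕ) : s.factorial ≤ 2 ^ (s * s) := by
  have h2 : s < 2 ^ s := Nat.lt_two_pow_self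
  calc s.factorial ≤ s ^ s := Nat.factorial_le_pow s
    _ ≤ (2 ^ s) ^ s := Nat.pow_le_pow_left h2.le s
    _ = 2 ^ (s * s) := by rw [← pow_mul]

theorem blowE_le {s m₀ N : ℕ} (hs : 2 ≤ s) (hm₀ : m₀ ≤ 11 * s ^ 3) (hN : N ≤ (8 * s ^ 3) ^ s) :
    blowE s m₀ N ≤ 2 ^ (56 * s ^ 6) := by
  obtain ⟨p1, p2, p3, p4⟩ := pow_two_le_six hs
  have hs2 : s < 2 ^ s := Nat.lt_two_pow_self
  have h1 : m₀.factorial ≤ 2 ^ ((4 + 3 * s) * (11 * s ^ 3)) := by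
    calc m₀.factorial ≤ m₀ ^ m₀ := Nat.factorial_le_pow m₀
      _ ≤ (2 ^ (4 + 3 * s)) ^ m₀ := Nat.pow_le_pow_left (m₀_le hm₀) _
      _ = 2 ^ ((4 + 3 * s) * m₀) := by rw [← pow_mul]
      _ ≤ 2 ^ ((4 + 3 * s) * (11 * s ^ 3)) :=
        Nat.pow_le_pow_right (by norm_num) (Nat.mul_le_mul_left _ hm₀)
  have h2 : N ≤ 2 ^ ((3 + 3 * s) * s) := by
    calc N ≤ (8 * s ^ 3) ^ s := hN
      _ ≤ (8 * (2 ^ s) ^ 3) ^ s :=
        Nat.pow_le_pow_left (Nat.mul_le_mul_left _ (Nat.pow_le_pow_left hs2.le 3)) s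
      _ = (2 ^ (3 + 3 * s)) ^ s := by
        congr 1
        rw [← pow_mul, pow_add, mul_comm s 3]
        norm_num
      _ = 2 ^ ((3 + 3 * s) * s) := by rw [← pow_mul]
  have h3 := factorial_le_two_pow s
  unfold blowE
  calc m₀.factorial ^ (s * s) * N * s.factorial ≤
      (2 ^ ((4 + 3 * s) * (11 * s ^ 3))) ^ (s * s) * 2 ^ ((3 + 3 * s) * s) * 2 ^ (s * s) :=
        Nat.mul_le_mul (Nat.mul_le_mul (Nat.pow_le_pow_left h1 _) h2) h3
    _ = 2 ^ ((4 + 3 * s) * (11 * s ^ 3) * (s * s) + (3 + 3 * s) * s + s * s) := by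
        rw [← pow_mul, ← pow_add, ← pow_add]
    _ ≤ 2 ^ (56 * s ^ 6) := by
        apply Nat.pow_le_pow_right (by norm_num)
        have e : (4 + 3 * s) * (11 * s ^ 3) * (s * s) + (3 + 3 * s) * s + s * s =
            44 * s ^ 5 + 33 * s ^ 6 + 3 * s + 4 * s ^ 2 := by ring
        rw [e]
        omega

theorem blowK_le {s m₀ N : ℕ} (hs : 2 ≤ s) (hm₀ : m₀ ≤ 11 * s ^ 3) (hN : N ≤ (8 * s ^ 3) ^ s) :
    blowK s m₀ N ≤ 2 ^ (58 * s ^ 6) := by
  obtain ⟨p1, p2, p3, p4⟩ := pow_two_le_six hs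
  have hs2 : s < 2 ^ s := Nat.lt_two_pow_self
  have h0 := m₀_le hm₀
  have h1 : m₀ ^ s ≤ 2 ^ ((4 + 3 * s) * s) := by
    calc m₀ ^ s ≤ (2 ^ (4 + 3 * s)) ^ s := Nat.pow_le_pow_left h0 s
      _ = 2 ^ ((4 + 3 * s) * s) := by rw [← pow_mul]
  have h2 : (m₀ ^ s) ^ s ≤ 2 ^ ((4 + 3 * s) * s * s) := by
    calc (m₀ ^ s) ^ s ≤ (2 ^ ((4 + 3 * s) * s)) ^ s := Nat.pow_le_pow_left h1 s
      _ = 2 ^ ((4 + 3 * s) * s * s) := by rw [← pow_mul]
  have h3 := factorial_le_two_pow s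
  have h4 := blowE_le hs hm₀ hN
  unfold blowK
  calc s * (s * (m₀ ^ s * s * (blowE s m₀ N * (s.factorial * (m₀ ^ s) ^ s)))) ≤
      2 ^ s * (2 ^ s * (2 ^ ((4 + 3 * s) * s) * 2 ^ s * (2 ^ (56 * s ^ 6) * (2 ^ (s * s) *
        2 ^ ((4 + 3 * s) * s * s))))) := by
        gcongr
    _ = 2 ^ (s + (s + (((4 + 3 * s) * s + s) + (56 * s ^ 6 + (s * s +
        (4 + 3 * s) * s * s))))) := by
        simp only [pow_add]
    _ ≤ 2 ^ (58 * s ^ 6) := by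
        apply Nat.pow_le_pow_right (by norm_num)
        have e : s + (s + (((4 + 3 * s) * s + s) + (56 * s ^ 6 + (s * s +
            (4 + 3 * s) * s * s)))) = 56 * s ^ 6 + 7 * s + 8 * s ^ 2 + 3 * s ^ 3 := by ring
        rw [e]
        omega

/-- The range of very large `m`. -/
theorem regime_one {m s : ℕ} (hs : 2 ≤ s) (hm : 2 ^ (60 * s ^ 6) ≤ m) :
    (m + s).choose s ≤ 240 * s ^ 2 * f m s := by
  obtain ⟨p1, p2, p3, p4⟩ := pow_two_le_six hs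
  obtain ⟨m₀, N, a, hN, hm₀, ha, h, hb1, hb2⟩ := seed_params s hs
  have hE := blowE_le hs hb1 hb2
  have hK := blowK_le hs hb1 hb2
  have hthr : (2 * s * (2 * blowK s m₀ N + 3 + blowE s m₀ N) +
      (2 * blowK s m₀ N + 3 + blowE s m₀ N)) * m₀ ≤ m := by
    refine le_trans ?_ hm
    have hs2 : s < 2 ^ s := Nat.lt_two_pow_self
    have h1 : 2 * blowK s m₀ N + 3 + blowE s m₀ N ≤ 2 ^ (58 * s ^ 6 + 3) := by
      have h2 : 2 ^ (56 * s ^ 6) ≤ 2 ^ (58 * s ^ 6) :=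
        Nat.pow_le_pow_right (by norm_num) (by omega)
      have h3 : 1 ≤ 2 ^ (58 * s ^ 6) := Nat.one_le_two_pow
      rw [pow_add]
      omega
    have h2 : 2 * s + 1 ≤ 2 ^ (s + 2) := by
      rw [pow_add]
      omega
    calc (2 * s * (2 * blowK s m₀ N + 3 + blowE s m₀ N) +
          (2 * blowK s m₀ N + 3 + blowE s m₀ N)) * m₀ =
          (2 * s + 1) * (2 * blowK s m₀ N + 3 + blowE s m₀ N) * m₀ := by ring
      _ ≤ 2 ^ (s + 2) * 2 ^ (58 * s ^ 6 + 3) * 2 ^ (4 + 3 * s) :=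
        Nat.mul_le_mul (Nat.mul_le_mul h2 h1) (m₀_le hb1)
      _ = 2 ^ (s + 2 + (58 * s ^ 6 + 3) + (4 + 3 * s)) := by rw [← pow_add, ← pow_add]
      _ ≤ 2 ^ (60 * s ^ 6) := by
        apply Nat.pow_le_pow_right (by norm_num)
        omega
  have hg := growth_explicit hN hm₀ a ha hthr
  have h1 : m ^ s ≤ 120 * (s * Nat.clog 2 s * s.factorial) * f m s := by
    have h2 : m ^ s * N ≤ (120 * (s * Nat.clog 2 s * s.factorial) * f m s) * N := by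
      calc m ^ s * N ≤ 2 * m₀ ^ s * f m s := hg
        _ ≤ 2 * (60 * (s * Nat.clog 2 s * s.factorial) * N) * f m s :=
          Nat.mul_le_mul_right _ (Nat.mul_le_mul_left _ h)
        _ = (120 * (s * Nat.clog 2 s * s.factorial) * f m s) * N := by ring
    exact Nat.le_of_mul_le_mul_right h2 hN
  have hL : Nat.clog 2 s ≤ s := Nat.clog_le_of_le_pow (Nat.lt_two_pow_self).le
  have hms : 2 * s ^ 2 ≤ m := by
    refine le_trans ?_ hm
    calc 2 * s ^ 2 ≤ 60 * s ^ 6 := by omega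
      _ ≤ 2 ^ (60 * s ^ 6) := (Nat.lt_two_pow_self).le
  have hpow : (m + s) ^ s ≤ 2 * m ^ s := by
    have hm0 : (0 : ℝ) < (m : ℝ) := by
      have : 0 < m := by nlinarith
      exact_mod_cast this
    have h2 : (1 + (s : ℝ) / m) ^ s ≤ 2 := by
      have h3 : (1 + (s : ℝ) / m) ≤ Real.exp ((s : ℝ) / m) := by
        rw [add_comm]
        exact Real.add_one_le_exp _
      calc (1 + (s : ℝ) / m) ^ s ≤ (Real.exp ((s : ℝ) / m)) ^ s :=
            pow_le_pow_left₀ (by positivity) h3 s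
        _ = Real.exp (s * ((s : ℝ) / m)) := by rw [← Real.exp_nat_mul]
        _ ≤ Real.exp (1 / 2) := by
          apply Real.exp_le_exp.2
          rw [← mul_div_assoc, div_le_div_iff₀ hm0 (by norm_num)]
          have h4 : ((2 * s ^ 2 : ℕ) : ℝ) ≤ m := by exact_mod_cast hms
          push_cast at h4
          nlinarith
        _ ≤ 2 := by
          have h5 : Real.exp (1 / 2) ^ 2 = Real.exp 1 := by
            rw [← Real.exp_nat_mul]
            norm_num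
          have h6 := Real.exp_one_lt_d9
          have h7 := Real.exp_pos (1 / 2)
          nlinarith
    have h8 : (((m + s) ^ s : ℕ) : ℝ) ≤ ((2 * m ^ s : ℕ) : ℝ) := by
      push_cast
      have h9 : (m : ℝ) + s = m * (1 + (s : ℝ) / m) := by field_simp
      rw [h9, mul_pow]
      have h10 : (0 : ℝ) ≤ (m : ℝ) ^ s := by positivity
      nlinarith
    exact_mod_cast h8
  have hch : s.factorial * (m + s).choose s ≤ (m + s) ^ s := by
    rw [← Nat.descFactorial_eq_factorial_mul_choose]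
    exact Nat.descFactorial_le_pow _ _
  have hfin : s.factorial * (m + s).choose s ≤ s.factorial * (240 * s ^ 2 * f m s) := by
    calc s.factorial * (m + s).choose s ≤ (m + s) ^ s := hch
      _ ≤ 2 * m ^ s := hpow
      _ ≤ 2 * (120 * (s * Nat.clog 2 s * s.factorial) * f m s) := Nat.mul_le_mul_left _ h1
      _ ≤ 2 * (120 * (s * s * s.factorial) * f m s) := by
        gcongr
      _ = s.factorial * (240 * s ^ 2 * f m s) := by ring
  exact Nat.le_of_mul_le_mul_left hfin (Nat.factorial_pos s)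

end Pool.Agent.FMS
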