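import Pool.Agent.Lib_helper64.FMS.Core

/-!
# One greedy step: the range `m ≥ 4 s² (log₂ m + 2)`
-/

namespace Pool.Agent.FMS

open Finset

/-- Comparison of binomial coefficients with the same lower entry. -/
theorem choose_mul_pow_le {k m : ℕ} (hkm : k ≤ m) (s : ℕ) :
    (m + s).choose s * k ^ s ≤ m ^ s * (k + s).choose s := by
  have key : ∀ s : ℕ, (m + 1).ascFactorial s * k ^ s ≤ m ^ s * (k + 1).ascFactorial s := by
    intro s
    induction s with
    | zero => simp
    | succ s ih =>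
      rw [Nat.ascFactorial_succ, Nat.ascFactorial_succ, pow_succ, pow_succ]
      have h1 : (m + 1 + s) * k ≤ m * (k + 1 + s) := by nlinarith
      calc (m + 1 + s) * (m + 1).ascFactorial s * (k ^ s * k) =
          ((m + 1 + s) * k) * ((m + 1).ascFactorial s * k ^ s) := by ring
        _ ≤ (m * (k + 1 + s)) * (m ^ s * (k + 1).ascFactorial s) := Nat.mul_le_mul h1 ih
        _ = m ^ s * m * ((k + 1 + s) * (k + 1).ascFactorial s) := by ring
  have h2 := key s
  rw [Nat.ascFactorial_eq_factorial_mul_choose, Nat.ascFactorial_eq_factorial_mul_choose] at h2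
  have h3 : s.factorial * ((m + s).choose s * k ^ s) ≤
      s.factorial * (m ^ s * (k + s).choose s) := by
    calc s.factorial * ((m + s).choose s * k ^ s) =
        s.factorial * (m + s).choose s * k ^ s := by ring
      _ ≤ m ^ s * (s.factorial * (k + s).choose s) := h2
      _ = s.factorial * (m ^ s * (k + s).choose s) := by ring
  exact Nat.le_of_mul_le_mul_left h3 (Nat.factorial_pos s)

/-- The numerical condition of `lt_f` for one greedy step. -/
theorem pow_lt_of_blocks {N M H j l : ℕ} (hN : 0 < N) (hj : N ≤ j * M) (hl : N < 2 ^ l)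
    (hH : j * l ≤ H) : N ^ (H + 1) < (N + M) ^ H := by
  have hNr : (0 : ℝ) < (N : ℝ) := by exact_mod_cast hN
  have h1 : (2 : ℝ) ≤ (1 + (M : ℝ) / N) ^ j := by
    have h2 : (1 : ℝ) + (j : ℝ) * ((M : ℝ) / N) ≤ (1 + (M : ℝ) / N) ^ j := by
      apply one_add_mul_le_pow
      have : (0 : ℝ) ≤ (M : ℝ) / N := by positivity
      linarith
    have h3 : (1 : ℝ) ≤ (j : ℝ) * ((M : ℝ) / N) := by
      rw [← mul_div_assoc, le_div_iff₀ hNr, one_mul]
      exact_mod_cast hj
    linarith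
  have h4 : (N : ℝ) < (1 + (M : ℝ) / N) ^ H := by
    calc (N : ℝ) < 2 ^ l := by exact_mod_cast hl
      _ ≤ ((1 + (M : ℝ) / N) ^ j) ^ l := pow_le_pow_left₀ (by norm_num) h1 l
      _ = (1 + (M : ℝ) / N) ^ (j * l) := by rw [pow_mul]
      _ ≤ (1 + (M : ℝ) / N) ^ H := by
        apply pow_le_pow_right₀ _ hH
        have : (0 : ℝ) ≤ (M : ℝ) / N := by positivity
        linarith
  have h5 : ((N ^ (H + 1) : ℕ) : ℝ) < (((N + M) ^ H : ℕ) : ℝ) := by
    push_cast
    have h6 : (N : ℝ) + M = N * (1 + (M : ℝ) / N) := by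
      field_simp
    rw [h6, mul_pow, pow_succ]
    exact mul_lt_mul_of_pos_left h4 (pow_pos hNr H)
  exact_mod_cast h5

/-- The range of large `m`. -/
theorem regime_two {m s : ℕ} (hs : 2 ≤ s) (hm : 4 * s * (s * (Nat.log 2 m + 2)) ≤ m) :
    (m + s).choose s ≤ 64 * (s * (Nat.log 2 m + 2)) * f m s := by
  obtain ⟨r, rfl⟩ : ∃ r, s = r + 1 := ⟨s - 1, by omega⟩
  have hr : 1 ≤ r := by omega
  set b := Nat.log 2 m with hb
  have hm2 : 2 * (r + 1) ≤ m := by
    refine le_trans ?_ hm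
    have h0 : 1 ≤ (r + 1) * (b + 2) := Nat.mul_pos (by omega) (by omega)
    calc 2 * (r + 1) ≤ 4 * (r + 1) * 1 := by omega
      _ ≤ 4 * (r + 1) * ((r + 1) * (b + 2)) := Nat.mul_le_mul_left _ h0
  set h := m / (r + 1) with hh
  have hh1 : (r + 1) * h ≤ m := Nat.mul_div_le m (r + 1)
  have hh2 : m < (r + 1) * (h + 1) := Nat.lt_mul_div_succ m (by omega)
  obtain ⟨k, hk⟩ : ∃ k, m = k + h := ⟨m - h, by nlinarith [Nat.sub_add_cancel (show h ≤ m by nlinarith)]⟩
  set M := (k + r).choose r with hM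
  have hM1 : 1 ≤ M := Nat.choose_pos (by omega)
  set l := Nat.log 2 (M * (h + 1)) + 1 with hl
  have hl1 : M * (h + 1) < 2 ^ l := Nat.lt_pow_succ_log_self one_lt_two _
  -- `l ≤ s (b + 2)`
  have hl2 : l ≤ (r + 1) * (b + 2) := by
    have h1 : M * (h + 1) ≤ (2 * m) ^ (r + 1) := by
      rw [pow_succ]
      refine Nat.mul_le_mul ?_ ?_
      · refine (Nat.choose_le_pow (k + r) r).trans (Nat.pow_le_pow_left ?_ r)
        have h0 : k ≤ m := hk ▸ Nat.le_add_right k h
        omega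
      · nlinarith
    have h2 : 2 * m < 2 ^ (b + 2) := by
      have h3 : m < 2 ^ (b + 1) := Nat.lt_pow_succ_log_self one_lt_two m
      calc 2 * m < 2 * 2 ^ (b + 1) := by omega
        _ = 2 ^ (b + 2) := by ring
    have h4 : M * (h + 1) < 2 ^ ((r + 1) * (b + 2)) := by
      calc M * (h + 1) ≤ (2 * m) ^ (r + 1) := h1
        _ < (2 ^ (b + 2)) ^ (r + 1) := Nat.pow_lt_pow_left h2 (by omega)
        _ = 2 ^ ((r + 1) * (b + 2)) := by rw [← pow_mul, mul_comm]
    have h5 : Nat.log 2 (M * (h + 1)) < (r + 1) * (b + 2) :=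
      Nat.log_lt_of_lt_pow (by positivity) h4
    omega
  have hlpos : 1 ≤ l := by omega
  -- `h + 1 ≥ 4 l`
  have hHl : 4 * l ≤ h + 1 := by
    have h1 : 4 * (r + 1) * l ≤ m :=
      (Nat.mul_le_mul_left _ hl2).trans hm
    have h2 : (r + 1) * (4 * l) < (r + 1) * (h + 1) := by
      calc (r + 1) * (4 * l) = 4 * (r + 1) * l := by ring
        _ ≤ m := h1
        _ < (r + 1) * (h + 1) := hh2
    exact (Nat.lt_of_mul_lt_mul_left h2).le
  set N := M * (h + 1) / (4 * l) with hN
  have hN1 : N * (4 * l) ≤ M * (h + 1) := Nat.div_mul_le_self _ _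
  have hN2 : M * (h + 1) < 4 * l * (N + 1) := Nat.lt_mul_div_succ _ (by omega)
  have hNM : M ≤ N := by
    rw [hN, Nat.le_div_iff_mul_le (by omega)]
    exact Nat.mul_le_mul_left _ hHl
  have hf : N < f m (r + 1) := by
    have h1 := lt_f (k := k) (r := r) (t := 1) (N := N) (fun _ => h) (by
      rw [Fin.prod_univ_one, ← hM]
      have hj1 : 2 * N ≤ (2 * N / M + 1) * M := by
        have := Nat.lt_div_mul_add (a := 2 * N) hM1
        nlinarith
      refine pow_lt_of_blocks (j := 2 * N / M + 1) (l := l) (by omega) hj1 ?_ ?_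
      · calc 2 * N ≤ N * (4 * l) := by nlinarith
          _ ≤ M * (h + 1) := hN1
          _ < 2 ^ l := hl1
      · have h3 : 2 * N / M * M ≤ 2 * N := Nat.div_mul_le_self _ _
        have h4 : ((2 * N / M + 1) * l) * M ≤ (h + 1) * M := by
          calc ((2 * N / M + 1) * l) * M = (2 * N / M * M + M) * l := by ring
            _ ≤ (2 * N + N) * l := Nat.mul_le_mul_right _ (by omega)
            _ ≤ N * (4 * l) := by nlinarith
            _ ≤ M * (h + 1) := hN1
            _ = (h + 1) * M := by ring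
        exact Nat.le_of_mul_le_mul_right h4 hM1)
    rw [Fin.sum_univ_one, ← hk] at h1
    exact h1
  have h4lf : M * (h + 1) ≤ 4 * l * f m (r + 1) :=
    hN2.le.trans (Nat.mul_le_mul_left _ hf)
  -- the ratio
  have hkpos : 0 < k := by nlinarith
  have hb1 := choose_mul_pow_le (k := k) (m := m) (by omega) (r + 1)
  have hb2 : m ^ (r + 1) ≤ 8 * k ^ (r + 1) := by
    have h1 : r * m ≤ (r + 1) * k := by nlinarith
    have h2 : (m : ℝ) ≤ k * (1 + 1 / (r : ℝ)) := by
      have hr0 : (0 : ℝ) < (r : ℝ) := by exact_mod_cast hr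
      have h3 : (r : ℝ) * m ≤ ((r : ℝ) + 1) * k := by exact_mod_cast h1
      have h4 : (k : ℝ) * (1 + 1 / (r : ℝ)) = (((r : ℝ) + 1) * k) / r := by
        field_simp
      rw [h4, le_div_iff₀ hr0]
      linarith
    have h5 : ((1 + 1 / (r : ℝ))) ^ (r + 1) ≤ 8 := by
      have hr0 : (0 : ℝ) < (r : ℝ) := by exact_mod_cast hr
      have h6 : (1 + 1 / (r : ℝ)) ≤ Real.exp (1 / (r : ℝ)) := by
        rw [add_comm]
        exact Real.add_one_le_exp _
      calc (1 + 1 / (r : ℝ)) ^ (r + 1) ≤ (Real.exp (1 / (r : ℝ))) ^ (r + 1) :=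
            pow_le_pow_left₀ (by positivity) h6 _
        _ = Real.exp ((r + 1 : ℕ) * (1 / (r : ℝ))) := by rw [← Real.exp_nat_mul]
        _ ≤ Real.exp (1 + 1) := by
          apply Real.exp_le_exp.2
          rw [mul_one_div, div_le_iff₀ hr0]
          push_cast
          have : (1 : ℝ) ≤ r := by exact_mod_cast hr
          linarith
        _ = Real.exp 1 * Real.exp 1 := Real.exp_add _ _
        _ ≤ 8 := by
          have := Real.exp_one_lt_d9
          have h7 := Real.exp_pos 1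
          nlinarith
    have h8 : ((m ^ (r + 1) : ℕ) : ℝ) ≤ ((8 * k ^ (r + 1) : ℕ) : ℝ) := by
      push_cast
      calc (m : ℝ) ^ (r + 1) ≤ (k * (1 + 1 / (r : ℝ))) ^ (r + 1) :=
            pow_le_pow_left₀ (by positivity) h2 _
        _ = (k : ℝ) ^ (r + 1) * (1 + 1 / (r : ℝ)) ^ (r + 1) := mul_pow _ _ _
        _ ≤ (k : ℝ) ^ (r + 1) * 8 := mul_le_mul_of_nonneg_left h5 (by positivity)
        _ = 8 * (k : ℝ) ^ (r + 1) := mul_comm _ _
    exact_mod_cast h8
  have hb3 : (k + (r + 1)).choose (r + 1) ≤ 2 * (h + 1) * M := by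
    have h1 : (k + r + 1) * M = (k + r + 1).choose (r + 1) * (r + 1) :=
      Nat.add_one_mul_choose_eq (k + r) r
    have h2 : k + r + 1 ≤ (r + 1) * (2 * (h + 1)) := by nlinarith
    have h3 : (k + r + 1).choose (r + 1) * (r + 1) ≤ (2 * (h + 1) * M) * (r + 1) := by
      rw [← h1]
      calc (k + r + 1) * M ≤ ((r + 1) * (2 * (h + 1))) * M := Nat.mul_le_mul_right _ h2
        _ = (2 * (h + 1) * M) * (r + 1) := by ring
    exact Nat.le_of_mul_le_mul_right h3 (by omega)
  have hfin : (m + (r + 1)).choose (r + 1) * k ^ (r + 1) ≤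
      (64 * ((r + 1) * (b + 2)) * f m (r + 1)) * k ^ (r + 1) := by
    calc (m + (r + 1)).choose (r + 1) * k ^ (r + 1) ≤
        m ^ (r + 1) * (k + (r + 1)).choose (r + 1) := hb1
      _ ≤ (8 * k ^ (r + 1)) * (2 * (h + 1) * M) := Nat.mul_le_mul hb2 hb3
      _ = 16 * k ^ (r + 1) * (M * (h + 1)) := by ring
      _ ≤ 16 * k ^ (r + 1) * (4 * l * f m (r + 1)) := Nat.mul_le_mul_left _ h4lf
      _ = 64 * l * f m (r + 1) * k ^ (r + 1) := by ring
      _ ≤ (64 * ((r + 1) * (b + 2)) * f m (r + 1)) * k ^ (r + 1) := by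
        refine Nat.mul_le_mul_right _ (Nat.mul_le_mul_right _ (Nat.mul_le_mul_left _ hl2))
  exact Nat.le_of_mul_le_mul_right hfin (pow_pos hkpos _)

end Pool.Agent.FMS
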